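import Pool.Agent.H904R3.Defs

/-!
# Evaluation of terms and adequacy

Terms are translated to combinators, and the combinators are evaluated by an inductively defined
relation `Ev`, in which the functionals are treated as oracles.
-/

set_option autoImplicit false

namespace Pool.Agent.H904R3

theorem dom_ext {σ τ : Ty} {f g : Dom (.arr σ τ)} (h : ∀ x, ap f x = ap g x) : f = g :=
  le_antisymm (le_arr.2 fun x => (h x).le) (le_arr.2 fun x => (h x).ge)

/-- The combinator `K`. -/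
def kD (σ τ : Ty) : Dom (.arr σ (.arr τ σ)) :=
  mk ⟨fun x => mk ⟨fun _ => x, fun _ _ _ => le_rfl⟩, fun _ _ h => le_arr.2 fun _ => h⟩

/-- The combinator `S`. -/
def sD (ρ σ τ : Ty) : Dom (.arr (.arr ρ (.arr σ τ)) (.arr (.arr ρ σ) (.arr ρ τ))) :=
  mk ⟨fun f => mk ⟨fun g => mk ⟨fun x => ap (ap f x) (ap g x),
    fun _ _ h => ap_mono (ap_mono le_rfl h) (ap_mono le_rfl h)⟩,
    fun g g' (h : g ≤ g') => le_arr.2 fun x =>
      show ap (ap f x) (ap g x) ≤ ap (ap f x) (ap g' x) from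
        ap_mono le_rfl (ap_mono h le_rfl)⟩,
    fun f f' (h : f ≤ f') => le_arr.2 fun g => le_arr.2 fun x =>
      show ap (ap f x) (ap g x) ≤ ap (ap f' x) (ap g x) from
        ap_mono (ap_mono h le_rfl) le_rfl⟩

@[simp] theorem ap_kD {σ τ : Ty} (x : Dom σ) (y : Dom τ) : ap (ap (kD σ τ) x) y = x := rfl

@[simp] theorem ap_sD {ρ σ τ : Ty} (f : Dom (.arr ρ (.arr σ τ))) (g : Dom (.arr ρ σ))
    (x : Dom ρ) : ap (ap (ap (sD ρ σ τ) f) g) x = ap (ap f x) (ap g x) := rfl

/-- Combinator terms. -/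
inductive CL : List Ty → Ty → Type
  | var {Γ : List Ty} {σ : Ty} : Var Γ σ → CL Γ σ
  | zero {Γ : List Ty} : CL Γ .nat
  | succ {Γ : List Ty} : CL Γ (.arr .nat .nat)
  | pred {Γ : List Ty} : CL Γ (.arr .nat .nat)
  | cases {Γ : List Ty} : CL Γ (.arr .nat (.arr .nat (.arr .nat .nat)))
  | fix {Γ : List Ty} (σ : Ty) : CL Γ (.arr (.arr σ σ) σ)
  | k {Γ : List Ty} (σ τ : Ty) : CL Γ (.arr σ (.arr τ σ))
  | s {Γ : List Ty} (ρ σ τ : Ty) :
      CL Γ (.arr (.arr ρ (.arr σ τ)) (.arr (.arr ρ σ) (.arr ρ τ)))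
  | app {Γ : List Ty} {σ τ : Ty} : CL Γ (.arr σ τ) → CL Γ σ → CL Γ τ

/-- The value of a combinator term. -/
noncomputable def ev {Γ : List Ty} : {σ : Ty} → CL Γ σ → (Env Γ → Dom σ)
  | _, .var v => fun ρ => look v ρ
  | _, .zero => fun _ => ofPt (Part.some 0)
  | _, .succ => fun _ => succD
  | _, .pred => fun _ => predD
  | _, .cases => fun _ => casesD
  | _, .fix σ => fun _ => fixD σ
  | _, .k σ τ => fun _ => kD σ τ
  | _, .s ρ σ τ => fun _ => sD ρ σ τ
  | _, .app f a => fun ρ => ap (ev f ρ) (ev a ρ)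

/-- Abstraction of a variable, on variables. -/
def absVar : {σ τ : Ty} → {Γ : List Ty} → Var (σ :: Γ) τ → CL Γ (.arr σ τ)
  | σ, _, _, .zero => .app (.app (.s σ (.arr σ σ) σ) (.k σ (.arr σ σ))) (.k σ σ)
  | _, _, _, .succ v => .app (.k _ _) (.var v)

/-- Abstraction of a variable. -/
def abs {σ : Ty} {Γ : List Ty} : {τ : Ty} → CL (σ :: Γ) τ → CL Γ (.arr σ τ)
  | _, .var v => absVar v
  | _, .zero => .app (.k _ _) .zero
  | _, .succ => .app (.k _ _) .succ
  | _, .pred => .app (.k _ _) .pred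
  | _, .cases => .app (.k _ _) .cases
  | _, .fix τ => .app (.k _ _) (.fix τ)
  | _, .k τ τ' => .app (.k _ _) (.k τ τ')
  | _, .s ρ τ τ' => .app (.k _ _) (.s ρ τ τ')
  | _, .app f a => .app (.app (.s _ _ _) (abs f)) (abs a)

theorem ev_absVar {σ τ : Ty} {Γ : List Ty} (v : Var (σ :: Γ) τ) (ρ : Env Γ) (x : Dom σ) :
    ap (ev (absVar v) ρ) x = look v (ext x ρ) := by
  cases v with
  | zero => rfl
  | succ v => rfl

theorem ev_abs {σ : Ty} {Γ : List Ty} (ρ : Env Γ) (x : Dom σ) : {τ : Ty} → (e : CL (σ :: Γ) τ) →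
    ap (ev (abs e) ρ) x = ev e (ext x ρ)
  | _, .var v => ev_absVar v ρ x
  | _, .zero => rfl
  | _, .succ => rfl
  | _, .pred => rfl
  | _, .cases => rfl
  | _, .fix _ => rfl
  | _, .k _ _ => rfl
  | _, .s _ _ _ => rfl
  | _, .app f a => by
    show ap (ap (ev (abs f) ρ) x) (ap (ev (abs a) ρ) x) = ap (ev f (ext x ρ)) (ev a (ext x ρ))
    rw [ev_abs ρ x f, ev_abs ρ x a]

/-- The translation of terms to combinator terms. -/
def tr : {Γ : List Ty} → {σ : Ty} → Term Γ σ → CL Γ σ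
  | _, _, .var v => .var v
  | _, _, .zero => .zero
  | _, _, .succ => .succ
  | _, _, .pred => .pred
  | _, _, .cases => .cases
  | _, _, .fix σ => .fix σ
  | _, _, .app f a => .app (tr f) (tr a)
  | _, _, .lam t => abs (tr t)

theorem ev_tr {Γ : List Ty} {σ : Ty} (t : Term Γ σ) : ∀ ρ : Env Γ, ev (tr t) ρ = eval t ρ := by
  induction t with
  | var v => intro ρ; rfl
  | zero => intro ρ; rfl
  | succ => intro ρ; rfl
  | pred => intro ρ; rfl
  | cases => intro ρ; rfl
  | fix σ => intro ρ; rfl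
  | app f a ihf iha =>
    intro ρ
    show ap (ev (tr f) ρ) (ev (tr a) ρ) = ap (eval f ρ) (eval a ρ)
    rw [ihf, iha]
  | lam t ih =>
    intro ρ
    refine dom_ext fun x => ?_
    show ap (ev (abs (tr t)) ρ) x = eval t (ext x ρ)
    rw [ev_abs, ih]

/-! ### Untyped combinators -/

/-- Untyped combinators with oracles; the index type `ι` is for constants for points of Cantor
space. -/
inductive U (ι : Type) : Type
  | k : U ι
  | s : U ι
  | fix : U ι
  | num : ℕ → U ι
  | succ : U ι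
  | pred : U ι
  | cases : U ι
  | real : ι → U ι
  | orX : U ι
  | orF : U ι
  | orO : U ι
  | app : U ι → U ι → U ι

/-- Renaming of the constants. -/
def U.map {ι κ : Type} (w : ι → κ) : U ι → U κ
  | .k => .k
  | .s => .s
  | .fix => .fix
  | .num n => .num n
  | .succ => .succ
  | .pred => .pred
  | .cases => .cases
  | .real i => .real (w i)
  | .orX => .orX
  | .orF => .orF
  | .orO => .orO
  | .app f a => .app (f.map w) (a.map w)

/-- States: a combinator and a list of arguments. -/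
abbrev St (ι : Type) : Type := U ι × List (U ι)

/-- Renaming of the constants. -/
def St.map {ι κ : Type} (w : ι → κ) (e : St ι) : St κ := (e.1.map w, e.2.map (U.map w))

/-- Functions applied to a sequence of numbers. -/
inductive GK (ι : Type) : Type
  | succ : GK ι
  | pred : GK ι
  | real : ι → GK ι
  | orX : GK ι
  | orF : GK ι

/-- The next thing to do in a state. -/
inductive View (ι : Type) : Type
  | stuck : View ι
  | ret : ℕ → View ι
  | step : St ι → View ι
  | cnt : (ℕ → St ι) → GK ι → View ι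
  | branch : St ι → (ℕ → St ι) → View ι
  | omega : U ι → View ι

/-- The next thing to do in a state. -/
def view {ι : Type} : St ι → View ι
  | (.app f a, π) => .step (f, a :: π)
  | (.k, a :: _ :: π) => .step (a, π)
  | (.s, a :: b :: c :: π) => .step (a, c :: .app b c :: π)
  | (.fix, f :: π) => .step (f, .app .fix f :: π)
  | (.num n, []) => .ret n
  | (.succ, [a]) => .cnt (fun _ => (a, [])) .succ
  | (.pred, [a]) => .cnt (fun _ => (a, [])) .pred
  | (.cases, [a, b, c]) => .branch (a, []) (fun v => if v = 0 then (b, []) else (c, []))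
  | (.real i, [a]) => .cnt (fun _ => (a, [])) (.real i)
  | (.orX, [a]) => .cnt (fun n => (a, [.num n])) .orX
  | (.orF, [a]) => .cnt (fun n => (a, [.num n])) .orF
  | (.orO, [a]) => .omega a
  | _ => .stuck

/-- Admissible arguments. -/
def GK.dom {ι : Type} : GK ι → (ℕ → ℕ) → Prop
  | .orX, f => ∀ n, f n = 0 ∨ f n = 1
  | _, _ => True

/-- The point of Cantor space coded by a sequence of zeros and ones. -/
def toC (f : ℕ → ℕ) : Cantor := fun n => decide (f n = 1)

open Classical in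
/-- Values. -/
noncomputable def GK.val (F : (ℕ → ℕ) → ℕ) (X : Set Cantor) {ι : Type} (w : ι → Cantor) :
    GK ι → (ℕ → ℕ) → ℕ
  | .succ, f => f 0 + 1
  | .pred, f => f 0 - 1
  | .real i, f => (w i (f 0)).toNat
  | .orX, f => if toC f ∈ X then 1 else 0
  | .orF, f => F f

open Classical in
/-- Evaluation, for states whose constants are points of Cantor space. -/
inductive Ev (F : (ℕ → ℕ) → ℕ) (X : Set Cantor) : St Cantor → ℕ → Prop
  | ret {e : St Cantor} {n : ℕ} : view e = .ret n → Ev F X e n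
  | step {e e' : St Cantor} {n : ℕ} : view e = .step e' → Ev F X e' n → Ev F X e n
  | cnt {e : St Cantor} {c : ℕ → St Cantor} {G : GK Cantor} {f : ℕ → ℕ} :
      view e = .cnt c G → (∀ n, Ev F X (c n) (f n)) → G.dom f → Ev F X e (G.val F X id f)
  | branch {e c : St Cantor} {k : ℕ → St Cantor} {v n : ℕ} :
      view e = .branch c k → Ev F X c v → Ev F X (k v) n → Ev F X e n
  | omega {e : St Cantor} {a : U Cantor} {g : Cantor → Bool} :
      view e = .omega a → (∀ z, Ev F X (a, [.real z]) (g z).toNat) →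
      {z | g z = true}.Subsingleton → Ev F X e (if {z | g z = true} = ∅ then 0 else 1)

/-! ### The logical relation -/

section

variable (F : (ℕ → ℕ) → ℕ) (X : Set Cantor)

/-- Related pairs of a semantical and a syntactical context. -/
def Gr : (σ : Ty) → (Dom σ → Part ℕ) → List (U Cantor) → Prop
  | .nat, δ, π => δ = pt ∧ π = []
  | .arr σ τ, δ, π => ∃ (d : Dom σ) (a : U Cantor) (δ' : Dom τ → Part ℕ) (π' : List (U Cantor)),
      (∀ δ₁ π₁, Gr σ δ₁ π₁ → ∀ n ∈ δ₁ d, Ev F X (a, π₁) n) ∧ Gr τ δ' π' ∧ π = a :: π' ∧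
        δ = fun f => δ' (ap f d)

/-- The logical relation. -/
def R (σ : Ty) (d : Dom σ) (a : U Cantor) : Prop :=
  ∀ δ π, Gr F X σ δ π → ∀ n ∈ δ d, Ev F X (a, π) n

variable {F X}

theorem Gr_nat : Gr F X .nat pt [] := ⟨rfl, rfl⟩

theorem Gr_arr {σ τ : Ty} {d : Dom σ} {a : U Cantor} {δ : Dom τ → Part ℕ} {π : List (U Cantor)}
    (h : R F X σ d a) (h' : Gr F X τ δ π) : Gr F X (.arr σ τ) (fun f => δ (ap f d)) (a :: π) :=
  ⟨d, a, δ, π, h, h', rfl, rfl⟩

theorem isLUB_ap {σ τ : Ty} {c : Set (Dom (.arr σ τ))} (hc : IsChain (· ≤ ·) c)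
    {d : Dom (.arr σ τ)} (hd : IsLUB c d) (x : Dom σ) :
    IsChain (· ≤ ·) ((fun f : Dom (.arr σ τ) => ap f x) '' c) ∧
      IsLUB ((fun f : Dom (.arr σ τ) => ap f x) '' c) (ap d x) := by
  have h0 : ∀ x : Dom σ, IsChain (· ≤ ·) ((fun f : Dom (.arr σ τ) => ap f x) '' c) := by
    rintro x _ ⟨f, hf, rfl⟩ _ ⟨g, hg, rfl⟩ _
    rcases hc.total hf hg with h | h
    · exact Or.inl (h x)
    · exact Or.inr (h x)
  have h1 : ∀ x : Dom σ, ∃ d, IsLUB ((fun f : Dom (.arr σ τ) => ap f x) '' c) d :=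
    fun x => exists_lub τ _ (h0 x)
  choose D hD using h1
  have hmono : Monotone D := by
    intro x y hxy
    apply (hD x).2
    rintro _ ⟨f, hf, rfl⟩
    exact le_trans (ap_mono le_rfl hxy) ((hD y).1 ⟨f, hf, rfl⟩)
  have h2 : IsLUB c (mk ⟨D, hmono⟩) := by
    refine ⟨fun f hf x => (hD x).1 ⟨f, hf, rfl⟩, fun g hg x => (hD x).2 ?_⟩
    rintro _ ⟨f, hf, rfl⟩
    exact hg hf x
  have h3 : d = mk ⟨D, hmono⟩ := hd.unique h2
  refine ⟨h0 x, ?_⟩
  rw [h3]
  exact hD x

theorem Gr_lub : ∀ (σ : Ty) (δ : Dom σ → Part ℕ) (π : List (U Cantor)), Gr F X σ δ π →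
    ∀ c : Set (Dom σ), IsChain (· ≤ ·) c → ∀ d, IsLUB c d → ∀ n ∈ δ d, ∃ x ∈ c, n ∈ δ x
  | .nat, δ, π, h, c, hc, d, hd, n, hn => by
    obtain ⟨rfl, rfl⟩ := h
    by_cases h : ∃ m : ℕ, ofPt (Part.some m) ∈ c
    · obtain ⟨m, hm⟩ := h
      refine ⟨_, hm, ?_⟩
      have h1 : m ∈ pt d := hd.1 hm m (Part.mem_some m)
      rw [Part.mem_unique hn h1]
      exact Part.mem_some m
    · exfalso
      have h1 : d ≤ ofPt Part.none := by
        apply hd.2
        intro x hx
        rw [le_nat]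
        intro n hn
        have h2 : pt x = Part.some n := Part.eq_some_iff.2 hn
        exact absurd ⟨n, by rw [← h2]; exact hx⟩ h
      exact Part.notMem_none n (h1 n hn)
  | .arr σ τ, δ, π, h, c, hc, d, hd, n, hn => by
    obtain ⟨d', a, δ', π', h1, h2, rfl, rfl⟩ := h
    obtain ⟨h3, h4⟩ := isLUB_ap hc hd d'
    obtain ⟨x, hx, hn'⟩ := Gr_lub τ δ' π' h2 _ h3 _ h4 n hn
    obtain ⟨f, hf, rfl⟩ := hx
    exact ⟨f, hf, hn'⟩

theorem R_app {σ τ : Ty} {f : Dom (.arr σ τ)} {d : Dom σ} {u a : U Cantor}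
    (hf : R F X (.arr σ τ) f u) (hd : R F X σ d a) : R F X τ (ap f d) (.app u a) := by
  intro δ π hG n hn
  refine Ev.step (e' := (u, a :: π)) rfl ?_
  exact hf _ _ (Gr_arr hd hG) n hn

theorem R_num (n : ℕ) : R F X .nat (ofPt (Part.some n)) (.num n) := by
  rintro δ π ⟨rfl, rfl⟩ m hm
  rw [pt_ofPt, Part.mem_some_iff] at hm
  subst hm
  exact Ev.ret rfl

theorem R_succ : R F X _ succD .succ := by
  rintro δ π ⟨d, a, δ', π', h1, ⟨rfl, rfl⟩, rfl, rfl⟩ n hn
  have hn' : n ∈ (pt d).map Nat.succ := hn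
  rw [Part.mem_map_iff] at hn'
  obtain ⟨m, hm, rfl⟩ := hn'
  exact Ev.cnt (f := fun _ => m) (G := .succ) rfl (fun _ => h1 _ _ Gr_nat m hm) trivial

theorem R_pred : R F X _ predD .pred := by
  rintro δ π ⟨d, a, δ', π', h1, ⟨rfl, rfl⟩, rfl, rfl⟩ n hn
  have hn' : n ∈ (pt d).map Nat.pred := hn
  rw [Part.mem_map_iff] at hn'
  obtain ⟨m, hm, rfl⟩ := hn'
  exact Ev.cnt (f := fun _ => m) (G := .pred) rfl (fun _ => h1 _ _ Gr_nat m hm) trivial

theorem R_cases : R F X _ casesD .cases := by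
  rintro δ π ⟨d, a, δ', π', h1, ⟨d2, a2, δ2, π2, h2, ⟨d3, a3, δ3, π3, h3, ⟨rfl, rfl⟩, rfl, rfl⟩,
    rfl, rfl⟩, rfl, rfl⟩ n hn
  have hn' : n ∈ pt (casesF d d2 d3) := hn
  rw [mem_casesF] at hn'
  obtain ⟨m, hm, hn'⟩ := hn'
  refine Ev.branch (v := m) rfl (h1 _ _ Gr_nat m hm) ?_
  by_cases hm0 : m = 0
  · rw [if_pos hm0] at hn' ⊢
    exact h2 _ _ Gr_nat n hn'
  · rw [if_neg hm0] at hn' ⊢
    exact h3 _ _ Gr_nat n hn'

theorem R_k (σ τ : Ty) : R F X _ (kD σ τ) .k := by
  rintro δ π ⟨d, a, δ', π', h1, ⟨d2, a2, δ2, π2, h2, h3, rfl, rfl⟩, rfl, rfl⟩ n hn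
  exact Ev.step (e' := (a, π2)) rfl (h1 _ _ h3 n hn)

theorem R_s (ρ σ τ : Ty) : R F X _ (sD ρ σ τ) .s := by
  rintro δ π ⟨d, a, δ', π', h1, ⟨d2, a2, δ2, π2, h2, ⟨d3, a3, δ3, π3, h3, h4, rfl, rfl⟩,
    rfl, rfl⟩, rfl, rfl⟩ n hn
  refine Ev.step (e' := (a, a3 :: .app a2 a3 :: π3)) rfl ?_
  exact h1 _ _ (Gr_arr h3 (Gr_arr (R_app (f := d2) (d := d3) h2 h3) h4)) n hn

theorem R_fix (σ : Ty) : R F X _ (fixD σ) .fix := by
  rintro δ π ⟨d, a, δ', π', h1, h2, rfl, rfl⟩ n hn
  have key : R F X σ (lfpD (show Dom σ →o Dom σ from d)) (.app .fix a) := by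
    apply lfpD_ind _ (fun x => R F X σ x (.app .fix a))
    · intro c hc hcR d' hd' δ π hG n hn
      obtain ⟨x, hx, hn'⟩ := Gr_lub σ δ π hG c hc d' hd' n hn
      exact hcR x hx δ π hG n hn'
    · intro x hx δ π hG n hn
      refine Ev.step (e' := (.fix, a :: π)) rfl ?_
      refine Ev.step (e' := (a, .app .fix a :: π)) rfl ?_
      exact h1 _ _ (Gr_arr hx hG) n hn
  have h3 := key δ' π' h2 n hn
  cases h3 with
  | ret h => simp [view] at h
  | step h h' =>
    simp only [view, View.step.injEq] at h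
    subst h
    exact h'
  | cnt h => simp [view] at h
  | branch h => simp [view] at h
  | omega h => simp [view] at h

/-- The combinator of a combinator term. -/
def toU {ι : Type} {Γ : List Ty} (γ : ∀ σ, Var Γ σ → U ι) : {σ : Ty} → CL Γ σ → U ι
  | _, .var v => γ _ v
  | _, .zero => .num 0
  | _, .succ => .succ
  | _, .pred => .pred
  | _, .cases => .cases
  | _, .fix _ => .fix
  | _, .k _ _ => .k
  | _, .s _ _ _ => .s
  | _, .app f a => .app (toU γ f) (toU γ a)

theorem toU_map {ι κ : Type} (w : ι → κ) {Γ : List Ty} (γ : ∀ σ, Var Γ σ → U ι) {σ : Ty}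
    (e : CL Γ σ) : (toU γ e).map w = toU (fun σ v => (γ σ v).map w) e := by
  induction e with
  | var v => rfl
  | zero => rfl
  | succ => rfl
  | pred => rfl
  | cases => rfl
  | fix σ => rfl
  | k σ τ => rfl
  | s ρ σ τ => rfl
  | app f a ihf iha =>
    simp only [toU, U.map]
    rw [ihf, iha]

/-- The fundamental theorem. -/
theorem fundamental {Γ : List Ty} (γ : ∀ σ, Var Γ σ → U Cantor) (ρ : Env Γ)
    (h : ∀ σ (v : Var Γ σ), R F X σ (look v ρ) (γ σ v)) {σ : Ty} (e : CL Γ σ) :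
    R F X σ (ev e ρ) (toU γ e) := by
  induction e with
  | var v => exact h _ v
  | zero => exact R_num 0
  | succ => exact R_succ
  | pred => exact R_pred
  | cases => exact R_cases
  | fix σ => exact R_fix σ
  | k σ τ => exact R_k σ τ
  | s ρ σ τ => exact R_s ρ σ τ
  | app f a ihf iha => exact R_app ihf iha

/-! ### The oracles -/

theorem R_real (z : Cantor) : R F X _ (embC z) (.real z) := by
  rintro δ π ⟨d, a, δ', π', h1, ⟨rfl, rfl⟩, rfl, rfl⟩ n hn
  have hn' : n ∈ (pt d).map (fun n => (z n).toNat) := hn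
  rw [Part.mem_map_iff] at hn'
  obtain ⟨m, hm, rfl⟩ := hn'
  exact Ev.cnt (f := fun _ => m) (G := .real z) rfl (fun _ => h1 _ _ Gr_nat m hm) trivial

/-- The functional defined exactly on the total functions, with the values of `F`. -/
def tot2 (F : (ℕ → ℕ) → ℕ) : Dom ty2 :=
  mk ⟨fun f => ofPt ⟨∀ n, (at1 f n).Dom, fun h => F fun n => (at1 f n).get (h n)⟩, by
    intro f g h
    rw [le_nat]
    intro k hk
    obtain ⟨hd, hv⟩ := hk
    have heq : ∀ n, at1 g n = at1 f n := fun n => eq_of_le_of_dom (at1_mono h n) (hd n)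
    refine ⟨fun n => (heq n).symm ▸ hd n, ?_⟩
    simp only [heq]
    exact hv⟩

open Classical in
/-- The function computed by `∃²`. -/
noncomputable def exF (f : ℕ → ℕ) : ℕ := if ∃ n, f n = 0 then 0 else 1

theorem ex2_eq : ex2 = tot2 exF := by
  refine dom_ext fun f => ?_
  show ofPt _ = ofPt _
  congr 1
  refine Part.ext' Iff.rfl fun h1 h2 => ?_
  have h3 : (∃ n, at1 f n = Part.some 0) ↔ (∃ n, (at1 f n).get (h1 n) = 0) := by
    constructor
    · rintro ⟨n, hn⟩
      exact ⟨n, Part.get_eq_iff_eq_some.2 hn⟩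
    · rintro ⟨n, hn⟩
      exact ⟨n, Part.get_eq_iff_eq_some.1 hn⟩
  classical
  show (if ∃ n, at1 f n = Part.some 0 then 0 else 1) = exF _
  unfold exF
  by_cases h : ∃ n, at1 f n = Part.some 0
  · rw [if_pos h, if_pos (h3.1 h)]
  · rw [if_neg h, if_neg (fun h' => h (h3.2 h'))]

theorem R_tot2 : R F X _ (tot2 F) .orF := by
  rintro δ π ⟨d, a, δ', π', h1, ⟨rfl, rfl⟩, rfl, rfl⟩ n hn
  obtain ⟨hd, rfl⟩ := hn
  refine Ev.cnt (f := fun n => (at1 d n).get (hd n)) (G := .orF) rfl (fun n => ?_) trivial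
  exact h1 _ _ (Gr_arr (R_num n) Gr_nat) _ (Part.get_mem _)

open Classical in
/-- The characteristic function of a set. -/
noncomputable def chr (X : Set Cantor) : Dom ty2 :=
  mk ⟨fun f => ofPt ⟨∀ n, at1 f n = Part.some 0 ∨ at1 f n = Part.some 1,
      fun _ => if (fun n => decide (at1 f n = Part.some 1)) ∈ X then 1 else 0⟩, by
    intro f g h
    rw [le_nat]
    intro k hk
    obtain ⟨hd, hv⟩ := hk
    have heq : ∀ n, at1 g n = at1 f n := by
      intro n
      rcases hd n with h1 | h1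
      · rw [h1]; exact eq_some_of_le (at1_mono h n) h1
      · rw [h1]; exact eq_some_of_le (at1_mono h n) h1
    refine ⟨fun n => (heq n).symm ▸ hd n, ?_⟩
    simp only [heq]
    exact hv⟩

theorem R_chr : R F X _ (chr X) .orX := by
  classical
  rintro δ π ⟨d, a, δ', π', h1, ⟨rfl, rfl⟩, rfl, rfl⟩ n hn
  obtain ⟨hd, rfl⟩ := hn
  have hdd : ∀ n, (at1 d n).Dom := by
    intro n
    rcases hd n with h | h <;> rw [h] <;> trivial
  have key : ∀ n, (at1 d n) = Part.some ((at1 d n).get (hdd n)) := fun n =>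
    (Part.some_get (hdd n)).symm
  have h3 := Ev.cnt (F := F) (X := X) (e := (.orX, [a])) (f := fun n => (at1 d n).get (hdd n))
    (G := .orX) rfl (fun n => h1 _ _ (Gr_arr (R_num n) Gr_nat) _ (Part.get_mem _)) (by
      intro n
      rcases hd n with h | h
      · left; exact Part.get_eq_iff_eq_some.2 h
      · right; exact Part.get_eq_iff_eq_some.2 h)
  convert h3 using 1
  show (if (fun n => decide (at1 d n = Part.some 1)) ∈ X then 1 else 0) = GK.val F X id .orX _
  have h4 : (fun n => decide (at1 d n = Part.some 1)) =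
      toC (fun n => (at1 d n).get (hdd n)) := by
    funext n
    unfold toC
    congr 1
    exact propext Part.get_eq_iff_eq_some.symm
  rw [h4]
  rfl

theorem R_omegaB : R F X _ OmegaB .orO := by
  classical
  rintro δ π ⟨d, a, δ', π', h1, ⟨rfl, rfl⟩, rfl, rfl⟩ n hn
  obtain ⟨⟨hd, hC⟩, rfl⟩ := hn
  have h2 : ∀ z : Cantor, at2 d z = Part.some (decide (at2 d z = Part.some 1)).toNat := by
    intro z
    rcases hd z with h | h
    · rw [h]; simp
    · rw [h]; simp
  have h3 := Ev.omega (F := F) (X := X) (e := (.orO, [a])) (a := a)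
    (g := fun z => decide (at2 d z = Part.some 1)) rfl (fun z => by
      refine h1 _ _ (Gr_arr (R_real z) Gr_nat) _ ?_
      have h4 : (decide (at2 d z = Part.some 1)).toNat ∈ at2 d z :=
        Part.eq_some_iff.1 (h2 z)
      exact h4) (by simpa using hC)
  convert h3 using 1
  simp only [decide_eq_true_eq]
  rfl

end

theorem chr_embC (X : Set Cantor) (z : Cantor) [Decidable (z ∈ X)] :
    at2 (chr X) z = Part.some (if z ∈ X then 1 else 0) := by
  classical
  have h0 : ∀ n, at1 (embC z) n = Part.some (z n).toNat := by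
    intro n
    show (Part.some n).map (fun n => (z n).toNat) = _
    rw [Part.map_some]
  have h1 : (fun n => decide (at1 (embC z) n = Part.some 1)) = z := by
    funext n
    rw [h0]
    cases h : z n <;> simp
  rw [Part.eq_some_iff]
  refine ⟨?_, ?_⟩
  · intro n
    rw [h0]
    cases h : z n <;> simp
  · show (if (fun n => decide (at1 (embC z) n = Part.some 1)) ∈ X then 1 else 0) = _
    rw [h1]
    congr

open Classical in
theorem mem_omegaC (X : Set Cantor) (hX : IsClosed X) :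
    (if X = ∅ then 0 else 1) ∈ pt (ap OmegaC (chr X)) := by
  have h1 : {x | at2 (chr X) x = Part.some 1} = X := by
    ext x
    show at2 (chr X) x = Part.some 1 ↔ x ∈ X
    rw [chr_embC]
    by_cases hx : x ∈ X
    · simp [hx]
    · simp [hx]
  refine ⟨⟨?_, ?_⟩, ?_⟩
  · intro x
    rw [chr_embC]
    by_cases hx : x ∈ X
    · right; rw [if_pos hx]
    · left; rw [if_neg hx]
  · rw [h1]; exact hX
  · show (if {x | at2 (chr X) x = Part.some 1} = ∅ then 0 else 1) = _
    rw [h1]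

/-- The values of the two free variables: `Ω_b` and a functional of type `2`. -/
def env2 (a : Dom ty3) (b : Dom ty2) : Env [ty3, ty2] := ext a (ext b empt)

/-- Syntactical values of the two free variables. -/
def gam (ι : Type) : ∀ σ, Var [ty3, ty2] σ → U ι
  | _, .zero => .orO
  | _, .succ .zero => .orF

open Classical in
/-- Adequacy: a term computing `Ω_C` gives a state which evaluates correctly. -/
theorem adequacy (F : (ℕ → ℕ) → ℕ) (s : Term [ty3, ty2] ty3)
    (h : OmegaC ≤ eval s (env2 OmegaB (tot2 F))) (X : Set Cantor) (hX : IsClosed X) :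
    Ev F X (toU (gam Cantor) (tr s), [.orX]) (if X = ∅ then 0 else 1) := by
  have h1 : (if X = ∅ then 0 else 1) ∈ pt (ap (eval s (env2 OmegaB (tot2 F))) (chr X)) :=
    (h (chr X)) _ (mem_omegaC X hX)
  rw [← ev_tr] at h1
  have h2 : R F X _ (ev (tr s) (env2 OmegaB (tot2 F))) (toU (gam Cantor) (tr s)) := by
    apply fundamental
    intro σ v
    match σ, v with
    | _, .zero => exact R_omegaB
    | _, .succ .zero => exact R_tot2
  exact h2 _ _ (Gr_arr R_chr Gr_nat) _ h1

end Pool.Agent.H904R3
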