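import Mathlib

/-!
# Bar induction for analytic sets
-/

set_option autoImplicit false

namespace Pool.Agent.H904R3.BarInd

open Set MeasureTheory Filter Topology

/-- An analytic nonempty set is a continuous image of Baire space. -/
theorem exists_range {X : Type*} [TopologicalSpace X] {S : Set X} (h : AnalyticSet S)
    (hne : S.Nonempty) : ∃ g : (ℕ → ℕ) → X, Continuous g ∧ range g = S := by
  rw [AnalyticSet] at h
  rcases h with h | h
  · exact absurd h hne.ne_empty
  · exact h

section

variable {Sk Z : Type} [TopologicalSpace Z] [PolishSpace Z]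

/-- A stage of the construction of an infinite path. -/
structure Stage (Bad : Sk → Set Z → Prop) where
  /-- the state -/
  e : Sk
  /-- a continuous map onto the set -/
  g : (ℕ → ℕ) → Z
  hg : Continuous g
  bad : Bad e (range g)
  /-- the history -/
  H : (ℕ → ℕ) → ℕ → ℕ → ℕ
  hH : Continuous H
  /-- the number of the stage -/
  i : ℕ
  hHi : ∀ b, H b i = b

/-- The next stage. -/
def Tr (sub : Sk × Z → Sk × Z → Prop) {Bad : Sk → Set Z → Prop} (s s' : Stage Bad)
    (k : (ℕ → ℕ) → ℕ → ℕ) : Prop :=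
  s'.i = s.i + 1 ∧ Continuous k ∧ (∀ b, sub (s'.e, s'.g b) (s.e, s.g (k b))) ∧
    (∀ b, ∀ j ≤ s.i, s'.H b j = s.H (k b) j) ∧
    (∀ b b', ∀ j ≤ s.i, ∀ n ≤ s.i, s'.H b j n = s'.H b' j n)

theorem exists_next (sub : Sk × Z → Sk × Z → Prop) (Bad : Sk → Set Z → Prop)
    (h0 : ∀ e, ¬ Bad e ∅) (ha : ∀ e S, Bad e S → AnalyticSet S)
    (hb : ∀ (ι : Type) [Countable ι] e S (A : ι → Set Z), Bad e S → (∀ n, AnalyticSet (A n)) →
      S = ⋃ n, A n → ∃ n, Bad e (A n))
    (hc : ∀ e S, Bad e S → ∃ e' S', ∃ φ : Z → Z, Continuous φ ∧ Bad e' S' ∧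
      ∀ y ∈ S', φ y ∈ S ∧ sub (e', y) (e, φ y))
    (s : Stage Bad) : ∃ s' k, Tr sub s s' k := by
  obtain ⟨e', S', φ, hφ, hbad', hS'⟩ := hc s.e (range s.g) s.bad
  have hne : ∀ {e S}, Bad e S → S.Nonempty := by
    intro e S h
    rw [nonempty_iff_ne_empty]
    rintro rfl
    exact h0 e h
  let C : Set ((ℕ → ℕ) × Z) := {p | p.2 ∈ S'} ∩ {p | φ p.2 = s.g p.1}
  have hC : AnalyticSet C := by
    have h1 : AnalyticSet {p : (ℕ → ℕ) × Z | p.2 ∈ S'} :=
      (ha e' S' hbad').preimage (f := fun p : (ℕ → ℕ) × Z => p.2) continuous_snd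
    have h2 : IsClosed {p : (ℕ → ℕ) × Z | φ p.2 = s.g p.1} :=
      isClosed_eq (hφ.comp continuous_snd) (s.hg.comp continuous_fst)
    have h3 : C = ⋂ b : Bool, (if b then {p : (ℕ → ℕ) × Z | p.2 ∈ S'} else
        {p : (ℕ → ℕ) × Z | φ p.2 = s.g p.1}) := by
      ext p
      simp only [C, mem_inter_iff, mem_iInter, Bool.forall_bool]
      simp [and_comm]
    rw [h3]
    refine AnalyticSet.iInter fun b => ?_
    cases b
    · exact h2.analyticSet
    · exact h1
  have hCne : C.Nonempty := by
    obtain ⟨y, hy⟩ := hne hbad'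
    obtain ⟨b, hb⟩ := (hS' y hy).1
    exact ⟨(b, y), hy, hb.symm⟩
  obtain ⟨c, hcc, hcr⟩ := exists_range hC hCne
  let h : (ℕ → ℕ) → (ℕ → ℕ) := fun b => (c b).1
  let g' : (ℕ → ℕ) → Z := fun b => (c b).2
  have hh : Continuous h := continuous_fst.comp hcc
  have hg' : Continuous g' := continuous_snd.comp hcc
  have hmem : ∀ b, g' b ∈ S' ∧ φ (g' b) = s.g (h b) := by
    intro b
    have h1 : c b ∈ C := by rw [← hcr]; exact mem_range_self b
    exact h1
  have hrange : range g' = S' := by
    apply Subset.antisymm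
    · rintro _ ⟨b, rfl⟩
      exact (hmem b).1
    · intro y hy
      obtain ⟨b, hb⟩ := (hS' y hy).1
      have h1 : (b, y) ∈ C := ⟨hy, hb.symm⟩
      rw [← hcr] at h1
      obtain ⟨b', hb'⟩ := h1
      exact ⟨b', congrArg Prod.snd hb'⟩
  let D : (ℕ → ℕ) → (Fin (s.i + 1) → Fin (s.i + 1) → ℕ) := fun b j n => s.H (h b) j n
  have hD : Continuous D := by
    refine continuous_pi fun j => continuous_pi fun n => ?_
    exact (continuous_apply (n : ℕ)).comp ((continuous_apply (j : ℕ)).comp (s.hH.comp hh))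
  have hP : ∀ v, IsClosed (D ⁻¹' {v}) := fun v => isClosed_singleton.preimage hD
  obtain ⟨v, hv⟩ := hb (Fin (s.i + 1) → Fin (s.i + 1) → ℕ) e' S' (fun v => g' '' (D ⁻¹' {v}))
    hbad' (fun v => (hP v).analyticSet.image_of_continuous hg') (by
      rw [← hrange, ← image_iUnion, ← image_univ]
      congr 1
      ext b
      simp)
  obtain ⟨y, b0, hb0, hyb0⟩ := hne hv
  obtain ⟨r, hr, hrr⟩ := exists_range (hP v).analyticSet ⟨b0, hb0⟩
  have hDr : ∀ b, D (r b) = v := by
    intro b
    have h1 : r b ∈ D ⁻¹' {v} := by rw [← hrr]; exact mem_range_self b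
    exact h1
  refine ⟨{ e := e', g := g' ∘ r, hg := hg'.comp hr, bad := ?_,
            H := fun b j => if j ≤ s.i then s.H (h (r b)) j else b,
            hH := ?_, i := s.i + 1, hHi := ?_ }, h ∘ r, rfl, hh.comp hr, ?_, ?_, ?_⟩
  · rw [range_comp, hrr]; exact hv
  · refine continuous_pi fun j => ?_
    by_cases hj : j ≤ s.i
    · simp only [if_pos hj]
      exact (continuous_apply j).comp (s.hH.comp (hh.comp hr))
    · simp only [if_neg hj]
      exact continuous_id
  · intro b
    simp
  · intro b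
    have h1 := (hS' _ (hmem (r b)).1).2
    rw [(hmem (r b)).2] at h1
    exact h1
  · intro b j hj
    simp only [if_pos hj]
    rfl
  · intro b b' j hj n hn
    simp only [if_pos hj]
    have h1 := congrFun (congrFun (hDr b) ⟨j, by omega⟩) ⟨n, by omega⟩
    have h2 := congrFun (congrFun (hDr b') ⟨j, by omega⟩) ⟨n, by omega⟩
    exact h1.trans h2.symm

/-- **Bar induction.** If every bad set has a bad piece in every countable decomposition into
analytic sets, and every bad set has a bad child, then every bad set contains the first element of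
an infinite descending sequence. -/
theorem bar (sub : Sk × Z → Sk × Z → Prop) (Bad : Sk → Set Z → Prop)
    (h0 : ∀ e, ¬ Bad e ∅) (ha : ∀ e S, Bad e S → AnalyticSet S)
    (hb : ∀ (ι : Type) [Countable ι] e S (A : ι → Set Z), Bad e S → (∀ n, AnalyticSet (A n)) →
      S = ⋃ n, A n → ∃ n, Bad e (A n))
    (hc : ∀ e S, Bad e S → ∃ e' S', ∃ φ : Z → Z, Continuous φ ∧ Bad e' S' ∧
      ∀ y ∈ S', φ y ∈ S ∧ sub (e', y) (e, φ y))
    (e : Sk) (S : Set Z) (hS : Bad e S) : ∃ y ∈ S, ¬ Acc sub (e, y) := by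
  have hne : S.Nonempty := by
    rw [nonempty_iff_ne_empty]
    rintro rfl
    exact h0 e hS
  obtain ⟨g, hg, hgr⟩ := exists_range (ha e S hS) hne
  let s0 : Stage Bad := { e := e, g := g, hg := hg, bad := by rw [hgr]; exact hS,
                          H := fun b _ => b, hH := continuous_pi fun _ => continuous_id,
                          i := 0, hHi := fun _ => rfl }
  have hnext := exists_next sub Bad h0 ha hb hc
  choose nx kk hnx using hnext
  let s : ℕ → Stage Bad := fun n => Nat.rec s0 (fun _ t => nx t) n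
  have hs : ∀ n, s (n + 1) = nx (s n) := fun n => rfl
  let k : ℕ → (ℕ → ℕ) → ℕ → ℕ := fun n => kk (s n)
  have hTr : ∀ n, Tr sub (s n) (s (n + 1)) (k n) := fun n => hnx (s n)
  have hi : ∀ n, (s n).i = n := by
    intro n
    induction n with
    | zero => rfl
    | succ n ih => rw [(hTr n).1, ih]
  let z0 : ℕ → ℕ := fun _ => 0
  let x : ℕ → ℕ → ℕ := fun j m => (s (max j m + 1)).H z0 j m
  have hA : ∀ j m i, max j m + 1 ≤ i → ∀ b, (s i).H b j m = x j m := by
    intro j m i hle
    induction i, hle using Nat.le_induction with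
    | base =>
      intro b
      exact (hTr (max j m)).2.2.2.2 b z0 j (by rw [hi]; exact le_max_left _ _) m
        (by rw [hi]; exact le_max_right _ _)
    | succ i hle ih =>
      intro b
      rw [(hTr i).2.2.2.1 b j (by rw [hi]; omega)]
      exact ih _
  have hB : ∀ j i, j + 1 ≤ i → ∀ b, (s i).H b j = k j ((s i).H b (j + 1)) := by
    intro j i hle
    induction i, hle using Nat.le_induction with
    | base =>
      intro b
      rw [(hTr j).2.2.2.1 b j (by rw [hi])]
      have h1 : (s (j + 1)).H b (j + 1) = b :=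
        (congrArg (fun t => (s (j + 1)).H b t) (hi (j + 1))).symm.trans ((s (j + 1)).hHi b)
      have h2 : (s j).H (k j b) j = k j b :=
        (congrArg (fun t => (s j).H (k j b) t) (hi j)).symm.trans ((s j).hHi (k j b))
      rw [h1, h2]
    | succ i hle ih =>
      intro b
      rw [(hTr i).2.2.2.1 b j (by rw [hi]; omega), (hTr i).2.2.2.1 b (j + 1) (by rw [hi]; omega)]
      exact ih _
  have hlim : ∀ j, Tendsto (fun i => (s i).H z0 j) atTop (𝓝 (x j)) := by
    intro j
    rw [tendsto_pi_nhds]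
    intro m
    refine tendsto_const_nhds.congr' ?_
    filter_upwards [eventually_ge_atTop (max j m + 1)] with i hle
    exact (hA j m i hle z0).symm
  have hk : ∀ j, k j (x (j + 1)) = x j := by
    intro j
    have h1 : Tendsto (fun i => k j ((s i).H z0 (j + 1))) atTop (𝓝 (k j (x (j + 1)))) :=
      ((hTr j).2.1.tendsto _).comp (hlim (j + 1))
    have h2 : Tendsto (fun i => k j ((s i).H z0 (j + 1))) atTop (𝓝 (x j)) := by
      refine (hlim j).congr' ?_
      filter_upwards [eventually_ge_atTop (j + 1)] with i hle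
      exact hB j i hle z0
    exact tendsto_nhds_unique h1 h2
  let f : ℕ → Sk × Z := fun j => ((s j).e, (s j).g (x j))
  have hf : ∀ j, sub (f (j + 1)) (f j) := by
    intro j
    have h1 := (hTr j).2.2.1 (x (j + 1))
    rw [hk j] at h1
    exact h1
  have hacc : ∀ p, Acc sub p → ∀ n, f n = p → False := by
    intro p hp
    induction hp with
    | intro p _ ih =>
      intro n hn
      exact ih (f (n + 1)) (hn ▸ hf n) (n + 1) rfl
  refine ⟨g (x 0), by rw [← hgr]; exact mem_range_self _, fun h => hacc _ h 0 rfl⟩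

end

end Pool.Agent.H904R3.BarInd
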