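import Mathlib

/-!
# Monotone functionals of finite type and Platek's typed lambda calculus

* `Ty`: the finite types over the type `nat`.
* `Dom σ`: the monotone functionals of type `σ`; `Dom nat` consists of the natural numbers and the
  undefined object, `Dom (σ ⟶ τ)` of all monotone maps from `Dom σ` to `Dom τ`, ordered pointwise.
* `Term Γ σ`: the terms of type `σ` of Platek's calculus with free variables of the types in `Γ`.
* `eval t`: the interpretation of a term, a monotone function of the values of the free variables.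
* `ex2`: Kleene's quantifier; `Omega 𝒞`: the functional deciding emptiness of the sets in `𝒞`.
-/

set_option autoImplicit false

namespace Pool.Agent.H904R3

/-- The finite types. -/
inductive Ty : Type
  | nat : Ty
  | arr : Ty → Ty → Ty
  deriving DecidableEq

/-- A type with an order. -/
structure Ord1 where
  /-- the underlying type -/
  C : Type
  /-- the order -/
  po : PartialOrder C

/-- The ordered type of the monotone functionals of a finite type. -/
def DomB : Ty → Ord1
  | .nat => ⟨Part ℕ, inferInstance⟩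
  | .arr σ τ =>
    letI := (DomB σ).po
    letI := (DomB τ).po
    ⟨(DomB σ).C →o (DomB τ).C, inferInstance⟩

/-- The monotone functionals of type `σ`: for the type `nat` these are the numbers and the
undefined object, for the type `arr σ τ` the monotone maps from `Dom σ` to `Dom τ`. -/
def Dom (σ : Ty) : Type := (DomB σ).C

instance instPartialOrderDom (σ : Ty) : PartialOrder (Dom σ) := (DomB σ).po

theorem dom_nat : Dom .nat = Part ℕ := rfl

/-- A functional of type `nat` as a possibly undefined number. -/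
def pt (x : Dom .nat) : Part ℕ := x

/-- A possibly undefined number as a functional of type `nat`. -/
def ofPt (x : Part ℕ) : Dom .nat := x

@[simp] theorem pt_ofPt (x : Part ℕ) : pt (ofPt x) = x := rfl

@[simp] theorem ofPt_pt (x : Dom .nat) : ofPt (pt x) = x := rfl

theorem le_nat {x y : Dom .nat} : x ≤ y ↔ ∀ n ∈ pt x, n ∈ pt y := Iff.rfl

theorem dom_arr (σ τ : Ty) : Dom (.arr σ τ) = (Dom σ →o Dom τ) := rfl

/-- Application of a functional. -/
def ap {σ τ : Ty} (f : Dom (.arr σ τ)) (x : Dom σ) : Dom τ :=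
  OrderHom.toFun (show Dom σ →o Dom τ from f) x

/-- A monotone map as a functional. -/
def mk {σ τ : Ty} (f : Dom σ →o Dom τ) : Dom (.arr σ τ) := f

@[simp] theorem ap_mk {σ τ : Ty} (f : Dom σ →o Dom τ) (x : Dom σ) : ap (mk f) x = f x := rfl

theorem le_arr {σ τ : Ty} {f g : Dom (.arr σ τ)} : f ≤ g ↔ ∀ x, ap f x ≤ ap g x := Iff.rfl

theorem ap_mono {σ τ : Ty} {f g : Dom (.arr σ τ)} {x y : Dom σ} (h : f ≤ g) (h' : x ≤ y) :
    ap f x ≤ ap g y :=
  le_trans (OrderHom.monotone (show Dom σ →o Dom τ from f) h') (h y)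

/-! ### Least fixed points -/

/-- In an order in which all chains have suprema, every monotone self-map has a least fixed point,
and this point has every property which is preserved by the map and by suprema of chains. -/
theorem exists_lfp {α : Type*} [PartialOrder α]
    (H : ∀ c : Set α, IsChain (· ≤ ·) c → ∃ d, IsLUB c d) (f : α →o α) (Q : α → Prop)
    (hQ : ∀ c : Set α, IsChain (· ≤ ·) c → (∀ x ∈ c, Q x) → ∀ d, IsLUB c d → Q d)
    (hf : ∀ x, Q x → Q (f x)) : ∃ x, f x = x ∧ (∀ y, f y ≤ y → x ≤ y) ∧ Q x := by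
  let A : Set α := {x | x ≤ f x ∧ (∀ y, f y ≤ y → x ≤ y) ∧ Q x}
  have hA : ∀ c ⊆ A, IsChain (· ≤ ·) c → ∃ ub ∈ A, ∀ z ∈ c, z ≤ ub := by
    intro c hcA hc
    obtain ⟨d, hd⟩ := H c hc
    refine ⟨d, ⟨?_, ?_, ?_⟩, fun z hz => hd.1 hz⟩
    · exact hd.2 fun z hz => le_trans (hcA hz).1 (f.monotone (hd.1 hz))
    · exact fun y hy => hd.2 fun z hz => (hcA hz).2.1 y hy
    · exact hQ c hc (fun x hx => (hcA hx).2.2) d hd
  obtain ⟨m, hm⟩ := zorn_le₀ A hA
  have hmA : m ∈ A := hm.1
  have hfm : f m ∈ A := ⟨f.monotone hmA.1, fun y hy => le_trans (f.monotone (hmA.2.1 y hy)) hy,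
    hf m hmA.2.2⟩
  have : f m ≤ m := hm.2 hfm hmA.1
  exact ⟨m, le_antisymm this hmA.1, hmA.2.1, hmA.2.2⟩

/-- Chains of monotone functionals have suprema. -/
theorem exists_lub : ∀ (σ : Ty) (c : Set (Dom σ)), IsChain (· ≤ ·) c → ∃ d, IsLUB c d
  | .nat, c, hc => by
    by_cases h : ∃ n : ℕ, ofPt (Part.some n) ∈ c
    · obtain ⟨n, hn⟩ := h
      refine ⟨ofPt (Part.some n), fun x hx => ?_, fun y hy => hy hn⟩
      rcases hc.total hx hn with h | h
      · exact h
      · have h1 : n ∈ pt x := h n (Part.mem_some n)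
        have h2 : pt x = Part.some n := Part.eq_some_iff.2 h1
        exact le_of_eq h2
    · refine ⟨ofPt Part.none, fun x hx => ?_, fun y _ => ?_⟩
      · rw [le_nat]
        intro n hn
        have h2 : pt x = Part.some n := Part.eq_some_iff.2 hn
        exact absurd ⟨n, by rw [← h2]; exact hx⟩ h
      · rw [le_nat]
        intro n hn
        exact absurd hn (Part.notMem_none n)
  | .arr σ τ, c, hc => by
    have h1 : ∀ x : Dom σ, ∃ d, IsLUB ((fun f : Dom (.arr σ τ) => ap f x) '' c) d := by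
      intro x
      apply exists_lub τ
      rintro _ ⟨f, hf, rfl⟩ _ ⟨g, hg, rfl⟩ _
      rcases hc.total hf hg with h | h
      · exact Or.inl (h x)
      · exact Or.inr (h x)
    choose D hD using h1
    have hmono : Monotone D := by
      intro x y hxy
      apply (hD x).2
      rintro _ ⟨f, hf, rfl⟩
      exact le_trans (ap_mono le_rfl hxy) ((hD y).1 ⟨f, hf, rfl⟩)
    refine ⟨mk ⟨D, hmono⟩, fun f hf x => (hD x).1 ⟨f, hf, rfl⟩, fun g hg x => (hD x).2 ?_⟩
    rintro _ ⟨f, hf, rfl⟩
    exact hg hf x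

theorem exists_lfpD {σ : Ty} (f : Dom σ →o Dom σ) : ∃ x, f x = x ∧ (∀ y, f y ≤ y → x ≤ y) := by
  obtain ⟨x, h1, h2, _⟩ := exists_lfp (exists_lub σ) f (fun _ => True) (fun _ _ _ _ _ => trivial)
    (fun _ _ => trivial)
  exact ⟨x, h1, h2⟩

/-- The least fixed point of a monotone map. -/
noncomputable def lfpD {σ : Ty} (f : Dom σ →o Dom σ) : Dom σ := (exists_lfpD f).choose

theorem lfpD_eq {σ : Ty} (f : Dom σ →o Dom σ) : f (lfpD f) = lfpD f := (exists_lfpD f).choose_spec.1

theorem lfpD_le {σ : Ty} (f : Dom σ →o Dom σ) {y : Dom σ} (h : f y ≤ y) : lfpD f ≤ y :=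
  (exists_lfpD f).choose_spec.2 y h

theorem lfpD_ind {σ : Ty} (f : Dom σ →o Dom σ) (Q : Dom σ → Prop)
    (hQ : ∀ c : Set (Dom σ), IsChain (· ≤ ·) c → (∀ x ∈ c, Q x) → ∀ d, IsLUB c d → Q d)
    (hf : ∀ x, Q x → Q (f x)) : Q (lfpD f) := by
  obtain ⟨x, h1, h2, h3⟩ := exists_lfp (exists_lub σ) f Q hQ hf
  have : x = lfpD f := le_antisymm (h2 _ (lfpD_eq f).le) (lfpD_le f h1.le)
  rwa [← this]

/-- The fixed point operator `Fix`, a functional of type `(σ → σ) → σ`. -/
noncomputable def fixD (σ : Ty) : Dom (.arr (.arr σ σ) σ) :=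
  mk ⟨fun f => lfpD (show Dom σ →o Dom σ from f), fun f g hfg => by
    apply lfpD_le
    refine le_trans (hfg _) ?_
    exact (lfpD_eq (show Dom σ →o Dom σ from g)).le⟩

/-! ### Terms -/

/-- Variables: places in a list of types. -/
inductive Var : List Ty → Ty → Type
  | zero {Γ : List Ty} {σ : Ty} : Var (σ :: Γ) σ
  | succ {Γ : List Ty} {σ τ : Ty} : Var Γ σ → Var (τ :: Γ) σ

/-- The terms of Platek's typed lambda calculus. -/
inductive Term : List Ty → Ty → Type
  | var {Γ : List Ty} {σ : Ty} : Var Γ σ → Term Γ σ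
  | zero {Γ : List Ty} : Term Γ .nat
  | succ {Γ : List Ty} : Term Γ (.arr .nat .nat)
  | pred {Γ : List Ty} : Term Γ (.arr .nat .nat)
  | cases {Γ : List Ty} : Term Γ (.arr .nat (.arr .nat (.arr .nat .nat)))
  | fix {Γ : List Ty} (σ : Ty) : Term Γ (.arr (.arr σ σ) σ)
  | app {Γ : List Ty} {σ τ : Ty} : Term Γ (.arr σ τ) → Term Γ σ → Term Γ τ
  | lam {Γ : List Ty} {σ τ : Ty} : Term (σ :: Γ) τ → Term Γ (.arr σ τ)

/-- Environments: values of the free variables. -/
def EnvB : List Ty → Ord1
  | [] => ⟨Unit, inferInstance⟩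
  | σ :: Γ =>
    letI := (EnvB Γ).po
    ⟨Dom σ × (EnvB Γ).C, inferInstance⟩

/-- Environments: values of the free variables. -/
def Env (Γ : List Ty) : Type := (EnvB Γ).C

instance instPartialOrderEnv (Γ : List Ty) : PartialOrder (Env Γ) := (EnvB Γ).po

/-- Extension of an environment by one value. -/
def ext {Γ : List Ty} {σ : Ty} (x : Dom σ) (ρ : Env Γ) : Env (σ :: Γ) := (x, ρ)

/-- The empty environment. -/
def empt : Env [] := ()

theorem ext_mono {Γ : List Ty} {σ : Ty} {x y : Dom σ} {ρ ρ' : Env Γ} (h : x ≤ y) (h' : ρ ≤ ρ') :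
    ext x ρ ≤ ext y ρ' := ⟨h, h'⟩

/-- The value of a variable. -/
def look : {Γ : List Ty} → {σ : Ty} → Var Γ σ → Env Γ → Dom σ
  | _, _, .zero, ρ => Prod.fst ρ
  | _, _, .succ v, ρ => look v (Prod.snd ρ)

theorem look_mono : ∀ {Γ : List Ty} {σ : Ty} (v : Var Γ σ), Monotone (look v)
  | _, _, .zero => fun _ _ h => h.1
  | _, _, .succ v => fun _ _ h => look_mono v h.2

/-- The successor function. -/
def succD : Dom (.arr .nat .nat) :=
  mk ⟨fun x => ofPt ((pt x).map Nat.succ), fun x y h => by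
    rw [le_nat]
    intro n hn
    rw [pt_ofPt, Part.mem_map_iff] at hn ⊢
    obtain ⟨m, hm, rfl⟩ := hn
    exact ⟨m, h m hm, rfl⟩⟩

/-- The predecessor function. -/
def predD : Dom (.arr .nat .nat) :=
  mk ⟨fun x => ofPt ((pt x).map Nat.pred), fun x y h => by
    rw [le_nat]
    intro n hn
    rw [pt_ofPt, Part.mem_map_iff] at hn ⊢
    obtain ⟨m, hm, rfl⟩ := hn
    exact ⟨m, h m hm, rfl⟩⟩

/-- Definition by cases: the value is `y` if `x = 0` and `z` if `x > 0`. -/
def casesF (x y z : Dom .nat) : Dom .nat :=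
  ofPt ((pt x).bind fun n => if n = 0 then pt y else pt z)

theorem mem_casesF {x y z : Dom .nat} {n : ℕ} :
    n ∈ pt (casesF x y z) ↔ ∃ m ∈ pt x, n ∈ (if m = 0 then pt y else pt z) := by
  rw [casesF, pt_ofPt, Part.mem_bind_iff]

theorem casesF_mono {x x' y y' z z' : Dom .nat} (hx : x ≤ x') (hy : y ≤ y') (hz : z ≤ z') :
    casesF x y z ≤ casesF x' y' z' := by
  rw [le_nat]
  intro n hn
  rw [mem_casesF] at hn ⊢
  obtain ⟨m, hm, hn⟩ := hn
  refine ⟨m, hx m hm, ?_⟩
  split_ifs at hn ⊢
  · exact hy n hn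
  · exact hz n hn

/-- Definition by cases as a functional. -/
def casesD : Dom (.arr .nat (.arr .nat (.arr .nat .nat))) :=
  mk ⟨fun x => mk ⟨fun y => mk ⟨fun z => casesF x y z,
    fun _ _ h => casesF_mono le_rfl le_rfl h⟩,
    fun _ _ h _ => casesF_mono le_rfl h le_rfl⟩,
    fun _ _ h _ _ => casesF_mono h le_rfl le_rfl⟩

/-- The interpretation of the terms. -/
noncomputable def eval : {Γ : List Ty} → {σ : Ty} → Term Γ σ → (Env Γ →o Dom σ)
  | _, _, .var v => ⟨look v, look_mono v⟩
  | _, _, .zero => ⟨fun _ => ofPt (Part.some 0), fun _ _ _ => le_rfl⟩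
  | _, _, .succ => ⟨fun _ => succD, fun _ _ _ => le_rfl⟩
  | _, _, .pred => ⟨fun _ => predD, fun _ _ _ => le_rfl⟩
  | _, _, .cases => ⟨fun _ => casesD, fun _ _ _ => le_rfl⟩
  | _, _, .fix σ => ⟨fun _ => fixD σ, fun _ _ _ => le_rfl⟩
  | _, _, .app s t => ⟨fun ρ => ap (eval s ρ) (eval t ρ),
      fun _ _ h => ap_mono ((eval s).monotone h) ((eval t).monotone h)⟩
  | _, _, .lam t => ⟨fun ρ => mk ⟨fun x => eval t (ext x ρ),
      fun _ _ h => (eval t).monotone (ext_mono h le_rfl)⟩,
      fun _ _ h => le_arr.2 fun x => (eval t).monotone (ext_mono (le_refl x) h)⟩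

/-! ### The functionals -/

/-- A point of Cantor space. -/
abbrev Cantor : Type := ℕ → Bool

/-- The type `1` of functions on the numbers. -/
abbrev ty1 : Ty := .arr .nat .nat

/-- The type `2`. -/
abbrev ty2 : Ty := .arr ty1 .nat

/-- The type `3`. -/
abbrev ty3 : Ty := .arr ty2 .nat

/-- The value of a functional of type `1` at the number `n`. -/
def at1 (f : Dom ty1) (n : ℕ) : Part ℕ := pt (ap f (ofPt (Part.some n)))

/-- A total function as a functional of type `1`. -/
def emb (x : ℕ → ℕ) : Dom ty1 :=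
  mk ⟨fun m => ofPt ((pt m).map x), fun a b h => by
    rw [le_nat]
    intro n hn
    rw [pt_ofPt, Part.mem_map_iff] at hn ⊢
    obtain ⟨m, hm, rfl⟩ := hn
    exact ⟨m, h m hm, rfl⟩⟩

/-- A point of Cantor space as a functional of type `1`. -/
def embC (x : Cantor) : Dom ty1 := emb fun n => (x n).toNat

theorem at1_mono {f g : Dom ty1} (h : f ≤ g) (n : ℕ) : at1 f n ≤ at1 g n := h _

theorem eq_some_of_le {a b : Part ℕ} {n : ℕ} (h : a ≤ b) (ha : a = Part.some n) :
    b = Part.some n := by
  subst ha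
  exact Part.eq_some_iff.2 (h n (Part.mem_some n))

theorem eq_of_le_of_dom {a b : Part ℕ} (h : a ≤ b) (ha : a.Dom) : b = a := by
  obtain ⟨n, hn⟩ := Part.dom_iff_mem.1 ha
  rw [Part.eq_some_iff.2 hn, Part.eq_some_iff.2 (h n hn)]

open Classical in
/-- Kleene's quantifier `∃²`, defined exactly on the total functions `f`, with value `0` if
`f n = 0` for some `n` and value `1` otherwise. -/
noncomputable def ex2 : Dom ty2 :=
  mk ⟨fun f => ofPt ⟨∀ n, (at1 f n).Dom, fun _ => if ∃ n, at1 f n = Part.some 0 then 0 else 1⟩, by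
    intro f g h
    rw [le_nat]
    intro k hk
    obtain ⟨hd, hv⟩ := hk
    have heq : ∀ n, at1 g n = at1 f n := fun n => eq_of_le_of_dom (at1_mono h n) (hd n)
    refine ⟨fun n => (heq n).symm ▸ hd n, ?_⟩
    simp only [heq]
    exact hv⟩

/-- The value of a functional of type `2` at a point of Cantor space. -/
def at2 (p : Dom ty2) (x : Cantor) : Part ℕ := pt (ap p (embC x))

theorem at2_mono {p q : Dom ty2} (h : p ≤ q) (x : Cantor) : at2 p x ≤ at2 q x := h _

open Classical in
/-- The functional deciding emptiness of the sets in the class `𝒞` of subsets of Cantor space: it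
is defined exactly at (the total characteristic functions of) the sets in `𝒞`, with value `0` if
the set is empty and `1` if it is not. -/
noncomputable def Omega (𝒞 : Set (Set Cantor)) : Dom ty3 :=
  mk ⟨fun p => ofPt ⟨(∀ x, at2 p x = Part.some 0 ∨ at2 p x = Part.some 1) ∧
        {x | at2 p x = Part.some 1} ∈ 𝒞,
      fun _ => if {x | at2 p x = Part.some 1} = ∅ then 0 else 1⟩, by
    intro p q h
    rw [le_nat]
    intro k hk
    obtain ⟨⟨hd, hC⟩, hv⟩ := hk
    have heq : ∀ x, at2 q x = at2 p x := by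
      intro x
      rcases hd x with h1 | h1
      · rw [h1]; exact eq_some_of_le (at2_mono h x) h1
      · rw [h1]; exact eq_some_of_le (at2_mono h x) h1
    refine ⟨⟨?_, ?_⟩, ?_⟩
    · simpa only [heq] using hd
    · simpa only [heq] using hC
    · simp only [heq]
      exact hv⟩

/-- `Ω_b`: emptiness of the sets with at most one element. -/
noncomputable def OmegaB : Dom ty3 := Omega {X | X.Subsingleton}

/-- `Ω_C`: emptiness of the closed sets. -/
noncomputable def OmegaC : Dom ty3 := Omega {X | IsClosed X}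

end Pool.Agent.H904R3
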