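import Pool.Agent.H904R3.Good
import Pool.Agent.H566W.Ana

/-!
# Generic closed sets cannot be distinguished from the empty set
-/

set_option autoImplicit false

namespace Pool.Agent.H904R3

open Set MeasureTheory Filter Topology

/-! ### Category -/

/-- Analytic sets have the property of Baire. -/
theorem analytic_baire {X : Type*} [TopologicalSpace X] [SecondCountableTopology X] [T2Space X]
    {A : Set X} (hA : AnalyticSet A) :
    ∃ u : Set X, IsOpen u ∧ ∀ᶠ x in residual X, (x ∈ A ↔ x ∈ u) := by
  rw [AnalyticSet] at hA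
  rcases hA with rfl | ⟨f, hf, hfr⟩
  · exact ⟨∅, isOpen_empty, Eventually.of_forall fun _ => Iff.rfl⟩
  have h1 : IsMeagre (A \ H566W.Dn A) := H566W.sdiff_Dn A
  have h2 : IsMeagre (H566W.Dn A \ A) := by
    rw [← hfr]
    exact H566W.analytic_bp hf
  have h3 : BaireMeasurableSet (H566W.Dn A) :=
    ((H566W.Dn_closed A).isOpen_compl.baireMeasurableSet).of_compl
  have h4 : A =ᶠ[residual X] H566W.Dn A := by
    rw [Filter.eventuallyEq_set]
    have h1' : (A \ H566W.Dn A)ᶜ ∈ residual X := h1
    have h2' : (H566W.Dn A \ A)ᶜ ∈ residual X := h2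
    filter_upwards [h1', h2'] with x hx1 hx2
    constructor
    · intro hx
      by_contra hc
      exact hx1 ⟨hx, hc⟩
    · intro hx
      by_contra hc
      exact hx2 ⟨hx, hc⟩
  obtain ⟨u, hu, hAu⟩ := (h3.congr h4.symm).residualEq_isOpen
  exact ⟨u, hu, Filter.eventuallyEq_set.1 hAu⟩

theorem ku_fwd {X Y : Type*} [TopologicalSpace X] [TopologicalSpace Y]
    [SecondCountableTopology Y] {p : X × Y → Prop} (h : ∀ᶠ q in residual (X × Y), p q) :
    ∀ᶠ x in residual X, ∀ᶠ y in residual Y, p (x, y) := by
  have h1 : IsMeagre {q : X × Y | ¬ p q} := by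
    rw [IsMeagre]
    filter_upwards [h] with q hq hn
    exact hn hq
  filter_upwards [H566W.ku h1] with x hx
  rw [IsMeagre] at hx
  filter_upwards [hx] with y hy
  by_contra hc
  exact hy hc

theorem ku_conv {X Y : Type*} [TopologicalSpace X] [TopologicalSpace Y] [PolishSpace X]
    [PolishSpace Y] [BaireSpace X] [BaireSpace Y] {A : Set (X × Y)} (hA : AnalyticSet A)
    (h : ∀ᶠ x in residual X, ∀ᶠ y in residual Y, (x, y) ∉ A) :
    ∀ᶠ p in residual (X × Y), p ∉ A := by
  obtain ⟨G, hG1, hG2, hG3⟩ := mem_residual.1 h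
  have hA' : AnalyticSet (A ∩ Prod.fst ⁻¹' G) := by
    refine analytic_inter hA ?_
    borelize X
    exact hG2.measurableSet.analyticSet.preimage continuous_fst
  have hm : IsMeagre (A ∩ Prod.fst ⁻¹' G) := by
    rw [AnalyticSet] at hA'
    rcases hA' with h0 | ⟨f, hf, hfr⟩
    · rw [h0]; exact IsMeagre.empty
    · rw [← hfr]
      apply H566W.meagre_of_sections hf
      intro x
      rw [hfr]
      by_cases hx : x ∈ G
      · have h1 : ∀ᶠ y in residual Y, (x, y) ∉ A := hG1 hx
        rw [IsMeagre]
        filter_upwards [h1] with y hy hy'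
        exact hy hy'.1
      · have : {y | (x, y) ∈ A ∩ Prod.fst ⁻¹' G} = ∅ := by
          ext y
          exact ⟨fun h => hx h.2, fun h => h.elim⟩
        rw [this]; exact IsMeagre.empty
  have hGr : ∀ᶠ p : X × Y in residual (X × Y), p.1 ∈ G :=
    (tendsto_residual_of_isOpenMap continuous_fst isOpenMap_fst).eventually
      (mem_residual.2 ⟨G, Subset.rfl, hG2, hG3⟩)
  rw [IsMeagre] at hm
  filter_upwards [hm, hGr] with p hp hpG hpA
  exact hp ⟨hpA, hpG⟩

instance : PolishSpace Cantor := KT.polish_mk _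

variable {F : (ℕ → ℕ) → ℕ}

theorem continuous_cons (w : W) : Continuous fun z : Cantor => cons z w := by
  refine continuous_pi fun n => ?_
  cases n with
  | zero => exact continuous_id
  | succ n => exact continuous_const

theorem analytic_ex {A B : Set Z} (hA : AnalyticSet A) (hB : AnalyticSet B) (w : W)
    {a b : KT × KT → KT} (ha : Continuous a) (hb : Continuous b) :
    AnalyticSet {p : KT × KT | ∃ z : Cantor, (cons z w, a p) ∈ A ∧ (cons z w, b p) ∈ B} := by
  have h1 : AnalyticSet {q : Cantor × (KT × KT) | ((cons q.1 w, a q.2) : Z) ∈ A} :=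
    hA.preimage (f := fun q : Cantor × (KT × KT) => ((cons q.1 w, a q.2) : Z))
      (((continuous_cons w).comp continuous_fst).prodMk (ha.comp continuous_snd))
  have h2 : AnalyticSet {q : Cantor × (KT × KT) | ((cons q.1 w, b q.2) : Z) ∈ B} :=
    hB.preimage (f := fun q : Cantor × (KT × KT) => ((cons q.1 w, b q.2) : Z))
      (((continuous_cons w).comp continuous_fst).prodMk (hb.comp continuous_snd))
  have h3 : {p : KT × KT | ∃ z : Cantor, (cons z w, a p) ∈ A ∧ (cons z w, b p) ∈ B} =
      (fun q : Cantor × (KT × KT) => q.2) ''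
        ({q : Cantor × (KT × KT) | ((cons q.1 w, a q.2) : Z) ∈ A} ∩
          {q : Cantor × (KT × KT) | ((cons q.1 w, b q.2) : Z) ∈ B}) := by
    ext p
    constructor
    · rintro ⟨z, h1, h2⟩
      exact ⟨(z, p), ⟨h1, h2⟩, rfl⟩
    · rintro ⟨⟨z, p⟩, ⟨h1, h2⟩, rfl⟩
      exact ⟨z, h1, h2⟩
  rw [h3]
  exact (analytic_inter h1 h2).image_of_continuous continuous_snd

theorem val_uni (G : GK ℕ) (w : W) (f : ℕ → ℕ) {T0 T : KT} (h : toC f ∉ KT.Xs T) :
    G.val F (KT.Xs (KT.uni T0 T)) w f = G.val F (KT.Xs T0) w f := by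
  cases G with
  | orX =>
    have h1 : toC f ∈ KT.Xs (KT.uni T0 T) ↔ toC f ∈ KT.Xs T0 := by
      rw [KT.mem_uni]
      exact ⟨fun h' => h'.resolve_right h, Or.inl⟩
    classical
    show (if toC f ∈ KT.Xs (KT.uni T0 T) then 1 else 0) = (if toC f ∈ KT.Xs T0 then 1 else 0)
    by_cases hc : toC f ∈ KT.Xs T0
    · rw [if_pos hc, if_pos (h1.2 hc)]
    · rw [if_neg hc, if_neg (fun h' => hc (h1.1 h'))]
  | _ => rfl

theorem continuous_uniZ (w : W) (T0 : KT) : Continuous fun T : KT => ((w, KT.uni T0 T) : Z) :=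
  continuous_const.prodMk (KT.continuous_uni.comp (continuous_const.prodMk continuous_id))

/-- **The main lemma**: the union with a generic closed set does not change the value of a total
computation. -/
theorem generic (hF : @Measurable _ _ (borel (ℕ → ℕ)) ⊤ F) {e : St ℕ} {S : Set Z}
    (h : Good F e S) : Tot F e S → ∀ (w : W) (T0 : KT) (v : ℕ) (q : Set KT), IsOpen q →
    E F e (w, T0) v → (∀ᶠ T in residual KT, T ∈ q → (w, KT.uni T0 T) ∈ S) →
    ∀ᶠ T in residual KT, T ∈ q → E F e (w, KT.uni T0 T) v := by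
  classical
  induction h with
  | @cover e S ι hι C hC hS ih =>
    intro ht w T0 v q hq hE hin
    have hB : ∀ n, ∃ u : Set KT, IsOpen u ∧
        ∀ᶠ T in residual KT, ((w, KT.uni T0 T) ∈ C n ↔ T ∈ u) := fun n =>
      analytic_baire ((hC n).analytic.preimage (continuous_uniZ w T0))
    choose u hu1 hu2 using hB
    have h3 : ∀ n, ∀ᶠ T in residual KT, T ∈ q ∩ u n → E F e (w, KT.uni T0 T) v := by
      intro n
      refine ih n (fun y hy => ht y ?_) w T0 v (q ∩ u n) (hq.inter (hu1 n)) hE ?_
      · rw [hS]; exact mem_iUnion.2 ⟨n, hy⟩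
      · filter_upwards [hu2 n] with T h hT
        exact h.2 hT.2
    filter_upwards [hin, eventually_countable_forall.2 h3, eventually_countable_forall.2 hu2]
      with T h1 h2 h4 hT
    have h5 := h1 hT
    rw [hS] at h5
    obtain ⟨n, hn⟩ := mem_iUnion.1 h5
    exact h2 n ⟨hT, (h4 n).1 hn⟩
  | @ret e S n hS hv =>
    intro _ w T0 v q _ hE _
    refine Eventually.of_forall fun T _ => ?_
    exact (E_ret hv).2 ((E_ret hv).1 hE)
  | @step e e' S hS hv _ ih =>
    intro ht w T0 v q hq hE hin
    have h1 := ih (fun y hy => by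
      obtain ⟨n, hn⟩ := ht y hy
      exact ⟨n, (E_step hv).1 hn⟩) w T0 v q hq ((E_step hv).1 hE) hin
    filter_upwards [h1] with T h hT
    exact (E_step hv).2 (h hT)
  | @cnt e c G S hS hv _ ih =>
    intro ht w T0 v q hq hE hin
    obtain ⟨f, hf, hd, rfl⟩ := (E_cnt hv).1 hE
    have htc : ∀ n, Tot F (c n) S := by
      intro n y hy
      obtain ⟨m, hm⟩ := ht y hy
      obtain ⟨f, hf, _⟩ := (E_cnt hv).1 hm
      exact ⟨_, hf n⟩
    have h1 : ∀ n, ∀ᶠ T in residual KT, T ∈ q → E F (c n) (w, KT.uni T0 T) (f n) :=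
      fun n => ih n (htc n) w T0 (f n) q hq (hf n) hin
    filter_upwards [eventually_countable_forall.2 h1, KT.eventually_notMem (toC f)]
      with T h2 h3 hT
    exact (E_cnt hv).2 ⟨f, fun n => h2 n hT, hd, (val_uni G w f h3).symm⟩
  | @branch e c k S hS hv _ _ ih1 ih2 =>
    intro ht w T0 n q hq hE hin
    obtain ⟨v, h1, h2⟩ := (E_branch hv).1 hE
    have htc : Tot F c S := by
      intro y hy
      obtain ⟨m, hm⟩ := ht y hy
      obtain ⟨v, h1, _⟩ := (E_branch hv).1 hm
      exact ⟨v, h1⟩
    have htk : ∀ v, Tot F (k v) {y | y ∈ S ∧ E F c y v} := by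
      rintro v y ⟨hy, hyv⟩
      obtain ⟨m, hm⟩ := ht y hy
      obtain ⟨v', h1, h2⟩ := (E_branch hv).1 hm
      have := E_det hyv h1
      subst this
      exact ⟨m, h2⟩
    have h3 := ih1 htc w T0 v q hq h1 hin
    have h4 := ih2 v (htk v) w T0 n q hq h2 (by
      filter_upwards [h3, hin] with T h h' hT
      exact ⟨h' hT, h hT⟩)
    filter_upwards [h3, h4] with T h h' hT
    exact (E_branch hv).2 ⟨v, h hT, h' hT⟩
  | @omega e a S hS hv hgood ih =>
    intro ht w T0 v q hq hE hin
    obtain ⟨g, hg, hs, rfl⟩ := (E_omega hv).1 hE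
    have ht' := tot_tl hv ht
    have IH : ∀ z, ∀ᶠ T in residual KT, T ∈ q →
        E F (up a) (cons z w, KT.uni T0 T) (g z).toNat := fun z =>
      ih ht' (cons z w) T0 _ q hq (hg z) (by
        filter_upwards [hin] with T h hT
        exact h hT)
    have huniq : ∀ (y : Z), y ∈ S → ∀ z z' : Cantor, E F (up a) (cons z y.1, y.2) 1 →
        E F (up a) (cons z' y.1, y.2) 1 → z = z' := by
      intro y hy z z' hz hz'
      obtain ⟨n, hn⟩ := ht y hy
      obtain ⟨g', hg', hs', _⟩ := (E_omega hv).1 hn
      have h1 : ∀ z, E F (up a) (cons z y.1, y.2) 1 → g' z = true := by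
        intro z hz
        have := E_det hz (hg' z)
        cases h : g' z
        · rw [h] at this; simp at this
        · rfl
      exact hs' (h1 z hz) (h1 z' hz')
    by_cases hemp : {z | g z = true} = ∅
    swap
    · rw [if_neg hemp]
      obtain ⟨z0, hz0⟩ := Set.nonempty_iff_ne_empty.2 hemp
      have hz0' : g z0 = true := hz0
      filter_upwards [IH z0, hin] with T h1 h2 hT
      obtain ⟨n, hn⟩ := ht _ (h2 hT)
      obtain ⟨g', hg', _, rfl⟩ := (E_omega hv).1 hn
      have h3 := E_det (h1 hT) (hg' z0)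
      rw [hz0'] at h3
      have h4 : g' z0 = true := by
        cases h : g' z0
        · rw [h] at h3; simp at h3
        · rfl
      have h5 : {z | g' z = true} ≠ ∅ := by
        intro h
        have h6 : z0 ∈ ({z | g' z = true} : Set Cantor) := h4
        rw [h] at h6
        exact h6
      rwa [if_neg h5] at hn
    · rw [if_pos hemp]
      have hg0 : ∀ z, g z = false := by
        intro z
        by_contra hc
        have h1 : z ∈ ({z | g z = true} : Set Cantor) := by
          show g z = true
          simpa using hc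
        rw [hemp] at h1
        exact h1
      set A : Set KT := {T | (w, KT.uni T0 T) ∈ {y | y ∈ S ∧ E F e y 1}} with hAdef
      have hA : AnalyticSet A :=
        ((Good.omega hS hv hgood).value hF ht 1).preimage (continuous_uniZ w T0)
      obtain ⟨u, hu1, hu2⟩ := analytic_baire hA
      by_cases hne : (q ∩ u).Nonempty
      swap
      · filter_upwards [hin, hu2] with T h1 h2 hT
        obtain ⟨n, hn⟩ := ht _ (h1 hT)
        obtain ⟨g', _, _, rfl⟩ := (E_omega hv).1 hn
        by_cases hc : {z | g' z = true} = ∅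
        · rwa [if_pos hc] at hn
        · exfalso
          rw [if_neg hc] at hn
          exact hne ⟨T, hT, h2.1 ⟨h1 hT, hn⟩⟩
      · exfalso
        obtain ⟨T1, hT1⟩ := hne
        obtain ⟨m, hm⟩ := KT.exists_B (hq.inter hu1) hT1
        set q' : Set KT := KT.B m T1 with hq'
        have hq'o : IsOpen q' := KT.isOpen_B m T1
        have hqA : ∀ᶠ T in residual KT, T ∈ q' → T ∈ A := by
          filter_upwards [hu2] with T h hT
          exact h.2 (hm hT).2
        set B1 : Set Z := {y | y ∈ tl ⁻¹' S ∧ E F (up a) y 1} with hB1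
        set B0 : Set Z := {y | y ∈ tl ⁻¹' S ∧ E F (up a) y 0} with hB0
        have hB1a : AnalyticSet B1 := hgood.value hF ht' 1
        have hB0a : AnalyticSet B0 := hgood.value hF ht' 0
        let M1 : Set (KT × KT) := {p | ∃ z : Cantor, (cons z w, KT.uni T0 p.1) ∈ B1 ∧
          (cons z w, KT.uni T0 (KT.uni p.1 p.2)) ∈ B0} ∩ (q' ×ˢ q')
        let M2 : Set (KT × KT) := {p | ∃ z : Cantor, (cons z w, KT.uni T0 p.1) ∈ B1 ∧
          (cons z w, KT.uni T0 p.2) ∈ B1} ∩ (q' ×ˢ q')
        have hqq : AnalyticSet (q' ×ˢ q') := by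
          borelize (KT × KT)
          exact (hq'o.prod hq'o).measurableSet.analyticSet
        have hcu : Continuous fun p : KT × KT => KT.uni T0 p.1 :=
          KT.continuous_uni.comp (continuous_const.prodMk continuous_fst)
        have hcu2 : Continuous fun p : KT × KT => KT.uni T0 p.2 :=
          KT.continuous_uni.comp (continuous_const.prodMk continuous_snd)
        have hcu3 : Continuous fun p : KT × KT => KT.uni T0 (KT.uni p.1 p.2) :=
          KT.continuous_uni.comp (continuous_const.prodMk KT.continuous_uni)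
        have hM1 : AnalyticSet M1 := analytic_inter (analytic_ex hB1a hB0a w hcu hcu3) hqq
        have hM2 : AnalyticSet M2 := analytic_inter (analytic_ex hB1a hB1a w hcu hcu2) hqq
        have huni : ∀ᶠ p : KT × KT in residual (KT × KT),
            KT.uni p.1 p.2 ∈ q' → KT.uni p.1 p.2 ∈ A :=
          (tendsto_residual_of_isOpenMap KT.continuous_uni KT.isOpenMap_uni).eventually hqA
        have e4 : ∀ᶠ p in residual (KT × KT), p ∉ M1 := by
          apply ku_conv hM1
          filter_upwards [ku_fwd huni] with T h2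
          by_cases hTq : T ∈ q'
          swap
          · exact Eventually.of_forall fun T' hM => hTq hM.2.1
          by_cases hz : ∃ z : Cantor, (cons z w, KT.uni T0 T) ∈ B1
          swap
          · refine Eventually.of_forall fun T' hM => ?_
            obtain ⟨⟨z, hz1, _⟩, _⟩ := hM
            exact hz ⟨z, hz1⟩
          obtain ⟨z, hz⟩ := hz
          have h3 := ih ht' (cons z w) (KT.uni T0 T) 1 q' hq'o hz.2 (by
            filter_upwards [h2] with T' h hT'
            have h4 := h (KT.uni_mem_B hTq hT')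
            show (w, KT.uni (KT.uni T0 T) T') ∈ S
            rw [KT.uni_assoc]
            exact h4.1)
          filter_upwards [h3] with T' h3 hM
          obtain ⟨⟨z', hz', hz0⟩, _, hT'⟩ := hM
          have hzz : z' = z := huniq (w, KT.uni T0 T) hz.1 z' z hz'.2 hz.2
          subst hzz
          have h5 := h3 hT'
          rw [KT.uni_assoc] at h5
          exact absurd (E_det h5 hz0.2) one_ne_zero
        have e6 : ∀ᶠ p in residual (KT × KT), p ∉ M2 := by
          apply ku_conv hM2
          refine Eventually.of_forall fun T => ?_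
          by_cases hz : ∃ z : Cantor, (cons z w, KT.uni T0 T) ∈ B1
          swap
          · refine Eventually.of_forall fun T' hM => ?_
            obtain ⟨⟨z, hz1, _⟩, _⟩ := hM
            exact hz ⟨z, hz1⟩
          obtain ⟨z, hz⟩ := hz
          filter_upwards [IH z] with T' h3 hM
          obtain ⟨⟨z', hz', hz1⟩, _, hT'⟩ := hM
          have hzz : z' = z := huniq (w, KT.uni T0 T) hz.1 z' z hz'.2 hz.2
          subst hzz
          have h5 := h3 (hm hT').1
          rw [hg0 z'] at h5
          exact absurd (E_det h5 hz1.2) zero_ne_one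
        have e1 : ∀ᶠ p : KT × KT in residual (KT × KT), p.1 ∈ q' → p.1 ∈ A :=
          (tendsto_residual_of_isOpenMap continuous_fst isOpenMap_fst).eventually hqA
        have e2 : ∀ᶠ p : KT × KT in residual (KT × KT), p.2 ∈ q' → p.2 ∈ A :=
          (tendsto_residual_of_isOpenMap continuous_snd isOpenMap_snd).eventually hqA
        have e5 : ∀ᶠ p : KT × KT in residual (KT × KT), (p.2, p.1) ∉ M1 :=
          (tendsto_residual_of_isOpenMap (Homeomorph.prodComm KT KT).continuous
            (Homeomorph.prodComm KT KT).isOpenMap).eventually e4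
        have hall := e1.and (e2.and (huni.and (e4.and (e5.and e6))))
        have hdense := dense_of_mem_residual hall
        obtain ⟨⟨T, T'⟩, ⟨h1, h2, h3, h4, h5, h6⟩, hTq, hTq'⟩ :=
          hdense.exists_mem_open (hq'o.prod hq'o) ⟨(T1, T1), KT.self_mem_B _ _, KT.self_mem_B _ _⟩
        have hTA : (w, KT.uni T0 T) ∈ {y | y ∈ S ∧ E F e y 1} := h1 hTq
        have hTA' : (w, KT.uni T0 T') ∈ {y | y ∈ S ∧ E F e y 1} := h2 hTq'
        have hTA'' : (w, KT.uni T0 (KT.uni T T')) ∈ {y | y ∈ S ∧ E F e y 1} :=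
          h3 (KT.uni_mem_B hTq hTq')
        have hex : ∀ y : Z, y ∈ S → E F e y 1 → ∃ z, E F (up a) (cons z y.1, y.2) 1 := by
          intro y _ hy1
          obtain ⟨g', hg', _, h7⟩ := (E_omega hv).1 hy1
          by_cases hc : {z | g' z = true} = ∅
          · rw [if_pos hc] at h7; exact absurd h7 one_ne_zero
          · obtain ⟨z, hz⟩ := Set.nonempty_iff_ne_empty.2 hc
            have hz' : g' z = true := hz
            have h8 := hg' z
            rw [hz'] at h8
            exact ⟨z, h8⟩
        obtain ⟨z, hz⟩ := hex _ hTA.1 hTA.2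
        obtain ⟨z', hz'⟩ := hex _ hTA'.1 hTA'.2
        have hzB : (cons z w, KT.uni T0 T) ∈ B1 := ⟨hTA.1, hz⟩
        have hzB' : (cons z' w, KT.uni T0 T') ∈ B1 := ⟨hTA'.1, hz'⟩
        have hne : z ≠ z' := by
          rintro rfl
          exact h6 ⟨⟨z, hzB, hzB'⟩, hTq, hTq'⟩
        obtain ⟨g', hg', hs', _⟩ := (E_omega hv).1 hTA''.2
        have key1 : g' z = true := by
          by_contra hc
          have h8 := hg' z
          rw [Bool.not_eq_true] at hc
          rw [hc] at h8
          exact h4 ⟨⟨z, hzB, hTA''.1, h8⟩, hTq, hTq'⟩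
        have key2 : g' z' = true := by
          by_contra hc
          have h8 := hg' z'
          rw [Bool.not_eq_true] at hc
          rw [hc] at h8
          refine h5 ⟨⟨z', hzB', ?_⟩, hTq', hTq⟩
          rw [show KT.uni (T', T).1 (T', T).2 = KT.uni T T' from KT.uni_comm _ _]
          exact ⟨hTA''.1, h8⟩
        exact hne (hs' key1 key2)

/-- **Theorem.** `Ω_C` is not computable in `Ω_b` and any Borel functional of type `2`. -/
theorem not_computable (hF : @Measurable _ _ (borel (ℕ → ℕ)) ⊤ F) (s : Term [ty3, ty2] ty3) :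
    ¬ OmegaC ≤ eval s (env2 OmegaB (tot2 F)) := by
  classical
  intro h
  let e : St ℕ := (toU (gam ℕ) (tr s), [.orX])
  have hmap : ∀ w : W, e.map w = (toU (gam Cantor) (tr s), [.orX]) := by
    intro w
    show ((toU (gam ℕ) (tr s)).map w, [U.orX]) = _
    rw [toU_map]
    congr 2
    funext σ v
    match σ, v with
    | _, .zero => rfl
    | _, .succ .zero => rfl
  have hval : ∀ y : Z, E F e y (if KT.Xs y.2 = ∅ then 0 else 1) := by
    intro y
    show Ev F (KT.Xs y.2) (e.map y.1) _
    rw [hmap]
    exact adequacy F s h (KT.Xs y.2) (KT.isClosed_Xs y.2)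
  have htot : Tot F e univ := fun y _ => ⟨_, hval y⟩
  have hgood : Good F e univ := good_of_tot hF isClosed_univ.analyticSet htot
  let w : W := fun _ _ => false
  have h0 : E F e (w, KT.emp) 0 := by
    have := hval (w, KT.emp)
    rwa [if_pos KT.Xs_emp] at this
  have h1 := generic hF hgood htot w KT.emp 0 univ isOpen_univ h0
    (Eventually.of_forall fun _ _ => trivial)
  obtain ⟨T, hT1, hT2⟩ := (dense_of_mem_residual h1).exists_mem_open KT.isOpen_NE KT.nonempty_NE
  have h2 := hT1 trivial
  rw [KT.uni_emp] at h2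
  have h3 := hval (w, T)
  rw [if_neg (Set.nonempty_iff_ne_empty.1 (KT.Xs_nonempty hT2))] at h3
  exact absurd (E_det h2 h3) zero_ne_one

/-- `∃²` is a Borel functional. -/
theorem measurable_exF : @Measurable _ _ (borel (ℕ → ℕ)) ⊤ exF := by
  classical
  borelize (ℕ → ℕ)
  have h1 : MeasurableSet {f : ℕ → ℕ | ∃ n, f n = 0} := by
    have : {f : ℕ → ℕ | ∃ n, f n = 0} = ⋃ n, {f : ℕ → ℕ | f n = 0} := by
      ext f; simp
    rw [this]
    refine MeasurableSet.iUnion fun n => ?_
    exact ((isOpen_discrete {0}).preimage (continuous_apply n)).measurableSet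
  have h2 : exF = fun f => if ∃ n, f n = 0 then 0 else 1 := rfl
  rw [h2]
  exact Measurable.ite h1 measurable_const measurable_const

/-- **Theorem.** `Ω_C` is not computable in `Ω_b` and `∃²`. -/
theorem main (s : Term [ty3, ty2] ty3) : ¬ OmegaC ≤ eval s (env2 OmegaB ex2) := by
  rw [ex2_eq]
  exact not_computable measurable_exF s

end Pool.Agent.H904R3
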