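import Mathlib

/-!
# The space of closed subsets of Cantor space
-/

set_option autoImplicit false

namespace Pool.Agent.H904R3

open Set Filter Topology

/-- Codes of closed sets: sets of nodes containing exactly the nodes one of whose two children they
contain. -/
def KT : Type := {T : List Bool → Bool // ∀ s, T s = (T (false :: s) || T (true :: s))}

namespace KT

instance : TopologicalSpace KT :=
  inferInstanceAs (TopologicalSpace {T : List Bool → Bool //
    ∀ s, T s = (T (false :: s) || T (true :: s))})

theorem isClosed_set : IsClosed {T : List Bool → Bool |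
    ∀ s, T s = (T (false :: s) || T (true :: s))} := by
  have h0 : {T : List Bool → Bool | ∀ s, T s = (T (false :: s) || T (true :: s))} =
      ⋂ s, {T : List Bool → Bool | T s = (T (false :: s) || T (true :: s))} := by
    ext T; simp
  rw [h0]
  refine isClosed_iInter fun s => isClosed_eq (continuous_apply s) ?_
  have h : Continuous fun p : Bool × Bool => (p.1 || p.2) := continuous_of_discreteTopology
  have h1 : Continuous fun T : List Bool → Bool => (T (false :: s), T (true :: s)) :=
    (continuous_apply (false :: s)).prodMk (continuous_apply (true :: s))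
  exact h.comp h1

instance : CompactSpace KT := isCompact_iff_compactSpace.1 isClosed_set.isCompact

instance : T2Space KT :=
  inferInstanceAs (T2Space {T : List Bool → Bool // ∀ s, T s = (T (false :: s) || T (true :: s))})

theorem polish_mk (α : Type*) [TopologicalSpace α] [SecondCountableTopology α]
    [TopologicalSpace.IsCompletelyMetrizableSpace α] : PolishSpace α := {}

instance : PolishSpace (List Bool → Bool) := polish_mk _

instance : PolishSpace KT := isClosed_set.polishSpace

instance : Nonempty KT := ⟨⟨fun _ => false, fun _ => rfl⟩⟩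

theorem continuous_at (s : List Bool) : Continuous fun T : KT => T.1 s :=
  (continuous_apply s).comp continuous_subtype_val

/-- The union of two codes. -/
def uni (T T' : KT) : KT := ⟨fun s => T.1 s || T'.1 s, fun s => by
  show (T.1 s || T'.1 s) = ((T.1 (false :: s) || T'.1 (false :: s)) ||
    (T.1 (true :: s) || T'.1 (true :: s)))
  rw [T.2 s, T'.2 s]
  cases T.1 (false :: s) <;> cases T.1 (true :: s) <;> cases T'.1 (false :: s) <;>
    cases T'.1 (true :: s) <;> rfl⟩

theorem ext' {T T' : KT} (h : ∀ s, T.1 s = T'.1 s) : T = T' := Subtype.ext (funext h)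

theorem uni_comm (T T' : KT) : uni T T' = uni T' T :=
  ext' fun _ => Bool.or_comm _ _

theorem uni_assoc (T T' T'' : KT) : uni (uni T T') T'' = uni T (uni T' T'') :=
  ext' fun _ => Bool.or_assoc _ _ _

theorem continuous_uni : Continuous fun p : KT × KT => uni p.1 p.2 := by
  refine Continuous.subtype_mk (continuous_pi fun s => ?_) _
  have h : Continuous fun p : Bool × Bool => (p.1 || p.2) := continuous_of_discreteTopology
  exact h.comp (((continuous_at s).comp continuous_fst).prodMk
    ((continuous_at s).comp continuous_snd))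

/-- The empty tree. -/
def emp : KT := ⟨fun _ => false, fun _ => rfl⟩

theorem uni_emp (T : KT) : uni emp T = T := ext' fun _ => Bool.false_or _

theorem anc {T : KT} {b : Bool} {s : List Bool} (h : T.1 (b :: s) = true) : T.1 s = true := by
  rw [T.2 s]
  cases b <;> simp [h]

theorem anc_drop {T : KT} : ∀ (m : ℕ) {s : List Bool}, T.1 s = true → T.1 (s.drop m) = true
  | 0, s, h => by simpa using h
  | m + 1, [], h => by simpa using h
  | m + 1, b :: s, h => by
    rw [List.drop_succ_cons]
    exact anc_drop m (anc h)

/-- The nodes of a branch. -/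
def node (x : ℕ → Bool) : ℕ → List Bool
  | 0 => []
  | n + 1 => x n :: node x n

theorem length_node (x : ℕ → Bool) (n : ℕ) : (node x n).length = n := by
  induction n with
  | zero => rfl
  | succ n ih => simp [node, ih]

/-- The closed set of the branches. -/
def Xs (T : KT) : Set (ℕ → Bool) := {x | ∀ n, T.1 (node x n) = true}

theorem mem_uni {T T' : KT} {x : ℕ → Bool} : x ∈ Xs (uni T T') ↔ x ∈ Xs T ∨ x ∈ Xs T' := by
  constructor
  · intro h
    by_contra hcon
    have hcon1 : ¬ x ∈ Xs T := fun h' => hcon (Or.inl h')
    have hcon2 : ¬ x ∈ Xs T' := fun h' => hcon (Or.inr h')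
    have hcon1' : ∃ n, ¬ T.1 (node x n) = true := by
      by_contra hc
      exact hcon1 fun n => by
        by_contra hn
        exact hc ⟨n, hn⟩
    have hcon2' : ∃ n, ¬ T'.1 (node x n) = true := by
      by_contra hc
      exact hcon2 fun n => by
        by_contra hn
        exact hc ⟨n, hn⟩
    obtain ⟨n, hn⟩ := hcon1'
    obtain ⟨m, hm⟩ := hcon2'
    have key : ∀ (T : KT) (n : ℕ), ¬ T.1 (node x n) = true →
        ∀ k, n ≤ k → ¬ T.1 (node x k) = true := by
      intro T n hn k hk
      induction k, hk using Nat.le_induction with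
      | base => exact hn
      | succ k hk ih => exact fun h => ih (anc h)
    have h1 := h (max n m)
    have h2 := key T n hn (max n m) (le_max_left _ _)
    have h3 := key T' m hm (max n m) (le_max_right _ _)
    have h4 : (T.1 (node x (max n m)) || T'.1 (node x (max n m))) = true := h1
    rw [Bool.or_eq_true] at h4
    rcases h4 with h4 | h4
    · exact h2 h4
    · exact h3 h4
  · rintro (h | h) n
    · show (T.1 _ || T'.1 _) = true
      rw [h n]; rfl
    · show (T.1 _ || T'.1 _) = true
      rw [h n, Bool.or_true]

/-- Basic open sets. -/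
def B (n : ℕ) (T : KT) : Set KT := {T' | ∀ s : List Bool, s.length ≤ n → T'.1 s = T.1 s}

theorem isOpen_B (n : ℕ) (T : KT) : IsOpen (B n T) := by
  have h1 : B n T = ⋂ s ∈ {s : List Bool | s.length ≤ n}, {T' : KT | T'.1 s = T.1 s} := by
    ext T'
    simp [B]
  rw [h1]
  refine (List.finite_length_le Bool n).isOpen_biInter fun s _ => ?_
  exact (isOpen_discrete {T.1 s}).preimage (continuous_at s)

theorem self_mem_B (n : ℕ) (T : KT) : T ∈ B n T := fun _ _ => rfl

theorem exists_B {O : Set KT} (hO : IsOpen O) {T : KT} (hT : T ∈ O) : ∃ n, B n T ⊆ O := by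
  obtain ⟨O', hO', rfl⟩ := isOpen_induced_iff.1 hO
  obtain ⟨I, u, hu1, hu2⟩ := isOpen_pi_iff.1 hO' T.1 hT
  refine ⟨I.sup List.length, fun T' hT' => ?_⟩
  apply hu2
  intro s hs
  have h1 : T'.1 s = T.1 s := hT' s (Finset.le_sup (f := List.length) hs)
  show T'.1 s ∈ u s
  rw [h1]
  exact (hu1 s hs).2

theorem B_mono {n m : ℕ} (h : n ≤ m) (T : KT) : B m T ⊆ B n T :=
  fun _ hT' s hs => hT' s (hs.trans h)

theorem uni_mem_B {n : ℕ} {T T1 T2 : KT} (h1 : T1 ∈ B n T) (h2 : T2 ∈ B n T) :
    uni T1 T2 ∈ B n T := by
  intro s hs
  show (T1.1 s || T2.1 s) = T.1 s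
  rw [h1 s hs, h2 s hs, Bool.or_self]

/-- The part of `T'` above the nodes of level `n` in `T`. -/
def above (n : ℕ) (T T' : KT) (h : ∀ s : List Bool, s.length ≤ n → T.1 s = true → T'.1 s = true) :
    KT :=
  ⟨fun s => T'.1 s && T.1 (s.drop (s.length - n)), fun s => by
    show (T'.1 s && T.1 (s.drop (s.length - n))) =
      ((T'.1 (false :: s) && T.1 ((false :: s).drop ((false :: s).length - n))) ||
      (T'.1 (true :: s) && T.1 ((true :: s).drop ((true :: s).length - n))))
    rcases lt_or_ge s.length n with hs | hs
    · have h1 : s.length - n = 0 := by omega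
      have h2 : ∀ b : Bool, (b :: s).length - n = 0 := fun b => by
        rw [List.length_cons]; omega
      rw [h1, h2, h2, List.drop_zero, List.drop_zero, List.drop_zero]
      have h3 : ∀ r : List Bool, r.length ≤ n → (T'.1 r && T.1 r) = T.1 r := by
        intro r hr
        cases hTr : T.1 r
        · simp
        · simp [h r hr hTr]
      rw [h3 s hs.le, h3 _ (by rw [List.length_cons]; omega),
        h3 _ (by rw [List.length_cons]; omega)]
      exact T.2 s
    · have h2 : ∀ b : Bool, (b :: s).drop ((b :: s).length - n) = s.drop (s.length - n) := by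
        intro b
        have : (b :: s).length - n = (s.length - n) + 1 := by
          rw [List.length_cons]; omega
        rw [this, List.drop_succ_cons]
      rw [h2, h2, ← Bool.and_or_distrib_right, ← T'.2 s]⟩

theorem above_apply (n : ℕ) (T T' : KT)
    (h : ∀ s : List Bool, s.length ≤ n → T.1 s = true → T'.1 s = true) (s : List Bool) :
    (above n T T' h).1 s = (T'.1 s && T.1 (s.drop (s.length - n))) := rfl

theorem above_mem_B (n : ℕ) (T T' : KT)
    (h : ∀ s : List Bool, s.length ≤ n → T.1 s = true → T'.1 s = true) :
    above n T T' h ∈ B n T := by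
  intro s hs
  rw [above_apply]
  have h1 : s.length - n = 0 := by omega
  rw [h1, List.drop_zero]
  cases hTr : T.1 s
  · simp
  · simp [h s hs hTr]

theorem isOpenMap_uni : IsOpenMap fun p : KT × KT => uni p.1 p.2 := by
  intro O hO
  rw [isOpen_iff_forall_mem_open]
  rintro _ ⟨⟨T, T'⟩, hTT, rfl⟩
  obtain ⟨U, V, hU, hV, hTU, hTV, hUV⟩ := isOpen_prod_iff.1 hO T T' hTT
  obtain ⟨n1, hn1⟩ := exists_B hU hTU
  obtain ⟨n2, hn2⟩ := exists_B hV hTV
  set n := max n1 n2 with hn
  refine ⟨B n (uni T T'), ?_, isOpen_B _ _, self_mem_B _ _⟩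
  intro Ts hTs
  have hTs' : ∀ s : List Bool, s.length ≤ n → Ts.1 s = (T.1 s || T'.1 s) := hTs
  have h1 : ∀ s : List Bool, s.length ≤ n → T.1 s = true → Ts.1 s = true := by
    intro s hs h
    rw [hTs' s hs, h]; rfl
  have h2 : ∀ s : List Bool, s.length ≤ n → T'.1 s = true → Ts.1 s = true := by
    intro s hs h
    rw [hTs' s hs, h, Bool.or_true]
  refine ⟨(above n T Ts h1, above n T' Ts h2), hUV ⟨?_, ?_⟩, ?_⟩
  · exact hn1 (B_mono (le_max_left _ _) T (above_mem_B n T Ts h1))
  · exact hn2 (B_mono (le_max_right _ _) T' (above_mem_B n T' Ts h2))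
  · refine ext' fun s => ?_
    show ((Ts.1 s && T.1 (s.drop (s.length - n))) || (Ts.1 s && T'.1 (s.drop (s.length - n)))) =
      Ts.1 s
    rw [← Bool.and_or_distrib_left, ← hTs' (s.drop (s.length - n)) (by
      rw [List.length_drop]; omega)]
    cases hs : Ts.1 s
    · rfl
    · rw [anc_drop _ hs]; rfl

/-! ### A point is generically not in the set -/

/-- A tree which agrees with `T` up to the level `n` and then only has the children `c`. -/
def thin (n : ℕ) (c : Bool) (T : KT) : KT :=
  ⟨fun s => T.1 (s.drop (s.length - n)) && (s.take (s.length - n)).all (fun b => b == c),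
    fun s => by
    show (T.1 (s.drop (s.length - n)) && (s.take (s.length - n)).all (fun b => b == c)) =
      ((T.1 ((false :: s).drop ((false :: s).length - n)) &&
        ((false :: s).take ((false :: s).length - n)).all (fun b => b == c)) ||
      (T.1 ((true :: s).drop ((true :: s).length - n)) &&
        ((true :: s).take ((true :: s).length - n)).all (fun b => b == c)))
    rcases lt_or_ge s.length n with hs | hs
    · have h1 : s.length - n = 0 := by omega
      have h2 : ∀ b : Bool, (b :: s).length - n = 0 := fun b => by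
        rw [List.length_cons]; omega
      rw [h1, h2, h2]
      simp only [List.drop_zero, List.take_zero, List.all_nil, Bool.and_true]
      exact T.2 s
    · have h2 : ∀ b : Bool, (b :: s).length - n = (s.length - n) + 1 := by
        intro b
        rw [List.length_cons]; omega
      rw [h2, h2]
      simp only [List.drop_succ_cons, List.take_succ_cons, List.all_cons]
      cases c <;> cases T.1 (s.drop (s.length - n)) <;> simp⟩

theorem thin_apply (n : ℕ) (c : Bool) (T : KT) (s : List Bool) : (thin n c T).1 s =
    (T.1 (s.drop (s.length - n)) && (s.take (s.length - n)).all (fun b => b == c)) := rfl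

theorem thin_mem_B (n : ℕ) (c : Bool) (T : KT) : thin n c T ∈ B n T := by
  intro s hs
  rw [thin_apply]
  have h1 : s.length - n = 0 := by omega
  rw [h1]
  simp

theorem isOpen_notMem (x : ℕ → Bool) : IsOpen {T : KT | x ∉ Xs T} := by
  have h1 : {T : KT | x ∉ Xs T} = ⋃ n, {T : KT | T.1 (node x n) = false} := by
    ext T
    show (¬ ∀ n, T.1 (node x n) = true) ↔ _
    simp [not_forall]
  rw [h1]
  refine isOpen_iUnion fun n => ?_
  exact (isOpen_discrete {false}).preimage (continuous_at _)

theorem dense_notMem (x : ℕ → Bool) : Dense {T : KT | x ∉ Xs T} := by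
  rw [dense_iff_inter_open]
  rintro O hO ⟨T, hT⟩
  obtain ⟨n, hn⟩ := exists_B hO hT
  refine ⟨thin n (!x n) T, hn (thin_mem_B _ _ _), fun h => ?_⟩
  have h1 := h (n + 1)
  rw [thin_apply, length_node, Bool.and_eq_true] at h1
  have h2 := h1.2
  have h3 : n + 1 - n = 1 := by omega
  rw [h3] at h2
  simp [node] at h2

theorem eventually_notMem (x : ℕ → Bool) : ∀ᶠ T in residual KT, x ∉ Xs T :=
  residual_of_dense_open (isOpen_notMem x) (dense_notMem x)

/-! ### Nonempty sets -/

/-- A branch. -/
def brN (T : KT) : ℕ → List Bool
  | 0 => []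
  | n + 1 => T.1 (true :: brN T n) :: brN T n

theorem node_br (T : KT) (n : ℕ) : node (fun n => T.1 (true :: brN T n)) n = brN T n := by
  induction n with
  | zero => rfl
  | succ n ih => simp [node, brN, ih]

theorem br_mem {T : KT} (h : T.1 [] = true) (n : ℕ) : T.1 (brN T n) = true := by
  induction n with
  | zero => exact h
  | succ n ih =>
    show T.1 (T.1 (true :: brN T n) :: brN T n) = true
    rw [T.2] at ih
    cases h1 : T.1 (true :: brN T n)
    · rw [h1, Bool.or_false] at ih
      exact ih
    · exact h1

theorem Xs_nonempty {T : KT} (h : T.1 [] = true) : (Xs T).Nonempty :=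
  ⟨fun n => T.1 (true :: brN T n), fun n => by rw [node_br]; exact br_mem h n⟩

theorem Xs_emp : Xs emp = ∅ := by
  rw [Set.eq_empty_iff_forall_notMem]
  intro x hx
  exact absurd (hx 0) (by simp [emp])

/-- The trees of the nonempty sets. -/
def NE : Set KT := {T | T.1 [] = true}

theorem isOpen_NE : IsOpen NE := (isOpen_discrete {true}).preimage (continuous_at [])

theorem nonempty_NE : NE.Nonempty := ⟨⟨fun _ => true, fun _ => rfl⟩, rfl⟩

/-- The nodes of a branch are determined by finitely many values. -/
theorem isOpen_node (n : ℕ) (s : List Bool) : IsOpen {x : ℕ → Bool | node x n = s} := by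
  induction n generalizing s with
  | zero =>
    by_cases h : s = []
    · subst h; simp [node]
    · have : {x : ℕ → Bool | node x 0 = s} = ∅ := by
        ext x
        show [] = s ↔ False
        exact ⟨fun h' => h h'.symm, False.elim⟩
      rw [this]; exact isOpen_empty
  | succ n ih =>
    cases s with
    | nil =>
      have : {x : ℕ → Bool | node x (n + 1) = []} = ∅ := by
        ext x; simp [node]
      rw [this]; exact isOpen_empty
    | cons b s =>
      have : {x : ℕ → Bool | node x (n + 1) = b :: s} =
          {x : ℕ → Bool | x n = b} ∩ {x : ℕ → Bool | node x n = s} := by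
        ext x; simp [node]
      rw [this]
      exact ((isOpen_discrete {b}).preimage (continuous_apply n)).inter (ih s)

theorem isClosed_mem : IsClosed {p : (ℕ → Bool) × KT | p.1 ∈ Xs p.2} := by
  have h1 : {p : (ℕ → Bool) × KT | p.1 ∈ Xs p.2} =
      (⋃ n, ⋃ s : List Bool, {x : ℕ → Bool | node x n = s} ×ˢ {T : KT | T.1 s = false})ᶜ := by
    ext ⟨x, T⟩
    show (∀ n, T.1 (node x n) = true) ↔ _
    simp only [mem_compl_iff, mem_iUnion, mem_prod, not_exists, not_and]
    constructor
    · intro h n s (hs : node x n = s) (hT : T.1 s = false)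
      rw [← hs, h n] at hT
      exact Bool.noConfusion hT
    · intro h n
      have h1 : ¬ T.1 (node x n) = false := h n (node x n) rfl
      simpa using h1
  rw [h1, isClosed_compl_iff]
  refine isOpen_iUnion fun n => isOpen_iUnion fun s => (isOpen_node n s).prod ?_
  exact (isOpen_discrete {false}).preimage (continuous_at s)

theorem isClosed_Xs (T : KT) : IsClosed (Xs T) := by
  have h1 : Xs T = (fun x : ℕ → Bool => (x, T)) ⁻¹' {p : (ℕ → Bool) × KT | p.1 ∈ Xs p.2} := rfl
  rw [h1]
  exact isClosed_mem.preimage (Continuous.prodMk_left T)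

end KT

end Pool.Agent.H904R3
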