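import Pool.Agent.H904R3.Adeq
import Pool.Agent.H904R3.Bar
import Pool.Agent.H904R3.Tree

/-!
# Total computations have analytic graphs
-/

set_option autoImplicit false

namespace Pool.Agent.H904R3

open Set MeasureTheory Filter Topology

/-! ### Determinism -/

theorem Ev.det {F : (ℕ → ℕ) → ℕ} {X : Set Cantor} {e : St Cantor} {n : ℕ} (h : Ev F X e n) :
    ∀ {m : ℕ}, Ev F X e m → n = m := by
  classical
  induction h with
  | @ret e n hv =>
    intro m h'
    cases h' with
    | ret hv' => rw [hv] at hv'; simpa using hv'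
    | step hv' => rw [hv] at hv'; simp at hv'
    | cnt hv' => rw [hv] at hv'; simp at hv'
    | branch hv' => rw [hv] at hv'; simp at hv'
    | omega hv' => rw [hv] at hv'; simp at hv'
  | @step e e' n hv _ ih =>
    intro m h'
    cases h' with
    | ret hv' => rw [hv] at hv'; simp at hv'
    | step hv' h2 =>
      rw [hv] at hv'
      simp only [View.step.injEq] at hv'
      subst hv'
      exact ih h2
    | cnt hv' => rw [hv] at hv'; simp at hv'
    | branch hv' => rw [hv] at hv'; simp at hv'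
    | omega hv' => rw [hv] at hv'; simp at hv'
  | @cnt e c G f hv _ hd ih =>
    intro m h'
    cases h' with
    | ret hv' => rw [hv] at hv'; simp at hv'
    | step hv' => rw [hv] at hv'; simp at hv'
    | @cnt _ c' G' f' hv' h2 hd' =>
      rw [hv] at hv'
      simp only [View.cnt.injEq] at hv'
      obtain ⟨rfl, rfl⟩ := hv'
      have : f = f' := funext fun n => ih n (h2 n)
      rw [this]
    | branch hv' => rw [hv] at hv'; simp at hv'
    | omega hv' => rw [hv] at hv'; simp at hv'
  | @branch e c k v n hv _ _ ih1 ih2 =>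
    intro m h'
    cases h' with
    | ret hv' => rw [hv] at hv'; simp at hv'
    | step hv' => rw [hv] at hv'; simp at hv'
    | cnt hv' => rw [hv] at hv'; simp at hv'
    | @branch _ c' k' v' _ hv' h2 h3 =>
      rw [hv] at hv'
      simp only [View.branch.injEq] at hv'
      obtain ⟨rfl, rfl⟩ := hv'
      have : v = v' := ih1 h2
      subst this
      exact ih2 h3
    | omega hv' => rw [hv] at hv'; simp at hv'
  | @omega e a g hv _ hs ih =>
    intro m h'
    cases h' with
    | ret hv' => rw [hv] at hv'; simp at hv'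
    | step hv' => rw [hv] at hv'; simp at hv'
    | cnt hv' => rw [hv] at hv'; simp at hv'
    | branch hv' => rw [hv] at hv'; simp at hv'
    | @omega _ a' g' hv' h2 hs' =>
      rw [hv] at hv'
      simp only [View.omega.injEq] at hv'
      subst hv'
      have : g = g' := by
        funext z
        have := ih z (h2 z)
        cases h3 : g z <;> cases h4 : g' z <;> simp [h3, h4] at this ⊢
      rw [this]

/-! ### Renaming of constants -/

/-- Renaming of the constants. -/
def GK.map {ι κ : Type} (w : ι → κ) : GK ι → GK κ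
  | .succ => .succ
  | .pred => .pred
  | .real i => .real (w i)
  | .orX => .orX
  | .orF => .orF

/-- Renaming of the constants. -/
def View.map {ι κ : Type} (w : ι → κ) : View ι → View κ
  | .stuck => .stuck
  | .ret n => .ret n
  | .step e => .step (e.map w)
  | .cnt c G => .cnt (fun n => (c n).map w) (G.map w)
  | .branch c k => .branch (c.map w) (fun v => (k v).map w)
  | .omega a => .omega (a.map w)

theorem view_map {ι κ : Type} (w : ι → κ) (e : St ι) : view (e.map w) = (view e).map w := by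
  obtain ⟨h, π⟩ := e
  cases h with
  | k => rcases π with _ | ⟨a, _ | ⟨b, π⟩⟩ <;> rfl
  | s => rcases π with _ | ⟨a, _ | ⟨b, _ | ⟨c, π⟩⟩⟩ <;> rfl
  | fix => rcases π with _ | ⟨a, π⟩ <;> rfl
  | num n => rcases π with _ | ⟨a, π⟩ <;> rfl
  | succ => rcases π with _ | ⟨a, _ | ⟨b, π⟩⟩ <;> rfl
  | pred => rcases π with _ | ⟨a, _ | ⟨b, π⟩⟩ <;> rfl
  | cases =>
    rcases π with _ | ⟨a, _ | ⟨b, _ | ⟨c, _ | ⟨d, π⟩⟩⟩⟩
    · rfl
    · rfl
    · rfl
    · simp only [St.map, view, View.map, U.map, List.map_cons, List.map_nil]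
      congr 1
      funext v
      split_ifs <;> rfl
    · rfl
  | real i => rcases π with _ | ⟨a, _ | ⟨b, π⟩⟩ <;> rfl
  | orX => rcases π with _ | ⟨a, _ | ⟨b, π⟩⟩ <;> rfl
  | orF => rcases π with _ | ⟨a, _ | ⟨b, π⟩⟩ <;> rfl
  | orO => rcases π with _ | ⟨a, _ | ⟨b, π⟩⟩ <;> rfl
  | app f a => rfl

theorem GK.dom_map {ι κ : Type} (w : ι → κ) (G : GK ι) (f : ℕ → ℕ) :
    (G.map w).dom f ↔ G.dom f := by
  cases G <;> rfl

theorem GK.val_map (F : (ℕ → ℕ) → ℕ) (X : Set Cantor) {ι κ : Type} (w : ι → κ) (u : κ → Cantor)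
    (G : GK ι) (f : ℕ → ℕ) : (G.map w).val F X u f = G.val F X (u ∘ w) f := by
  cases G <;> rfl

theorem U.map_map {ι κ μ : Type} (w : ι → κ) (u : κ → μ) (a : U ι) :
    (a.map w).map u = a.map (u ∘ w) := by
  induction a with
  | app f a ihf iha => simp only [U.map, ihf, iha]
  | _ => rfl

/-! ### Computations with parameters -/

/-- Sequences of points of Cantor space. -/
abbrev W : Type := ℕ → Cantor

/-- The space of parameters. -/
abbrev Z : Type := W × KT

instance : PolishSpace W := KT.polish_mk _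

/-- Adding a new first term. -/
def cons (z : Cantor) (w : W) : W
  | 0 => z
  | n + 1 => w n

/-- The evaluation of a state with parameters. -/
def E (F : (ℕ → ℕ) → ℕ) (e : St ℕ) (y : Z) (n : ℕ) : Prop := Ev F (KT.Xs y.2) (e.map y.1) n

/-- A state applied to the new first parameter. -/
def up (a : U ℕ) : St ℕ := (a.map Nat.succ, [.real 0])

theorem up_map (a : U ℕ) (z : Cantor) (w : W) : (up a).map (cons z w) = (a.map w, [.real z]) := by
  simp only [up, St.map, U.map_map, List.map_cons, List.map_nil, U.map]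
  rfl

section

variable {F : (ℕ → ℕ) → ℕ}

theorem E_det {e : St ℕ} {y : Z} {n m : ℕ} (h : E F e y n) (h' : E F e y m) : n = m :=
  Ev.det h h'

theorem view_eq {e : St ℕ} {v : View ℕ} (h : view e = v) (w : W) : view (e.map w) = v.map w := by
  rw [view_map, h]

theorem E_stuck {e : St ℕ} (h : view e = .stuck) {y : Z} {n : ℕ} : ¬ E F e y n := by
  intro h'
  have hv := view_eq h y.1
  cases h' with
  | ret hv' => rw [hv] at hv'; simp [View.map] at hv'
  | step hv' => rw [hv] at hv'; simp [View.map] at hv'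
  | cnt hv' => rw [hv] at hv'; simp [View.map] at hv'
  | branch hv' => rw [hv] at hv'; simp [View.map] at hv'
  | omega hv' => rw [hv] at hv'; simp [View.map] at hv'

theorem E_ret {e : St ℕ} {m : ℕ} (h : view e = .ret m) {y : Z} {n : ℕ} : E F e y n ↔ n = m := by
  have hv := view_eq h y.1
  constructor
  · intro h'
    cases h' with
    | ret hv' => rw [hv] at hv'; simp [View.map] at hv'; exact hv'.symm
    | step hv' => rw [hv] at hv'; simp [View.map] at hv'
    | cnt hv' => rw [hv] at hv'; simp [View.map] at hv'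
    | branch hv' => rw [hv] at hv'; simp [View.map] at hv'
    | omega hv' => rw [hv] at hv'; simp [View.map] at hv'
  · rintro rfl
    exact Ev.ret hv

theorem E_step {e e' : St ℕ} (h : view e = .step e') {y : Z} {n : ℕ} :
    E F e y n ↔ E F e' y n := by
  have hv := view_eq h y.1
  constructor
  · intro h'
    cases h' with
    | ret hv' => rw [hv] at hv'; simp [View.map] at hv'
    | step hv' h2 =>
      rw [hv] at hv'
      simp only [View.map, View.step.injEq] at hv'
      subst hv'
      exact h2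
    | cnt hv' => rw [hv] at hv'; simp [View.map] at hv'
    | branch hv' => rw [hv] at hv'; simp [View.map] at hv'
    | omega hv' => rw [hv] at hv'; simp [View.map] at hv'
  · exact fun h' => Ev.step hv h'

theorem E_cnt {e : St ℕ} {c : ℕ → St ℕ} {G : GK ℕ} (h : view e = .cnt c G) {y : Z} {n : ℕ} :
    E F e y n ↔ ∃ f : ℕ → ℕ, (∀ n, E F (c n) y (f n)) ∧ G.dom f ∧
      n = G.val F (KT.Xs y.2) y.1 f := by
  have hv := view_eq h y.1
  constructor
  · intro h'
    cases h' with
    | ret hv' => rw [hv] at hv'; simp [View.map] at hv'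
    | step hv' => rw [hv] at hv'; simp [View.map] at hv'
    | @cnt _ c' G' f hv' h2 hd =>
      rw [hv] at hv'
      simp only [View.map, View.cnt.injEq] at hv'
      obtain ⟨rfl, rfl⟩ := hv'
      exact ⟨f, h2, (GK.dom_map _ _ _).1 hd, GK.val_map _ _ _ _ _ _⟩
    | branch hv' => rw [hv] at hv'; simp [View.map] at hv'
    | omega hv' => rw [hv] at hv'; simp [View.map] at hv'
  · rintro ⟨f, h1, h2, rfl⟩
    have h3 := Ev.cnt (F := F) (X := KT.Xs y.2) hv h1 ((GK.dom_map _ _ _).2 h2)
    rw [GK.val_map] at h3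
    exact h3

theorem E_branch {e c : St ℕ} {k : ℕ → St ℕ} (h : view e = .branch c k) {y : Z} {n : ℕ} :
    E F e y n ↔ ∃ v, E F c y v ∧ E F (k v) y n := by
  have hv := view_eq h y.1
  constructor
  · intro h'
    cases h' with
    | ret hv' => rw [hv] at hv'; simp [View.map] at hv'
    | step hv' => rw [hv] at hv'; simp [View.map] at hv'
    | cnt hv' => rw [hv] at hv'; simp [View.map] at hv'
    | @branch _ c' k' v _ hv' h2 h3 =>
      rw [hv] at hv'
      simp only [View.map, View.branch.injEq] at hv'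
      obtain ⟨rfl, rfl⟩ := hv'
      exact ⟨v, h2, h3⟩
    | omega hv' => rw [hv] at hv'; simp [View.map] at hv'
  · rintro ⟨v, h1, h2⟩
    exact Ev.branch hv h1 h2

open Classical in
theorem E_omega {e : St ℕ} {a : U ℕ} (h : view e = .omega a) {y : Z} {n : ℕ} :
    E F e y n ↔ ∃ g : Cantor → Bool, (∀ z, E F (up a) (cons z y.1, y.2) (g z).toNat) ∧
      {z | g z = true}.Subsingleton ∧ n = if {z | g z = true} = ∅ then 0 else 1 := by
  have hv := view_eq h y.1
  constructor
  · intro h'
    cases h' with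
    | ret hv' => rw [hv] at hv'; simp [View.map] at hv'
    | step hv' => rw [hv] at hv'; simp [View.map] at hv'
    | cnt hv' => rw [hv] at hv'; simp [View.map] at hv'
    | branch hv' => rw [hv] at hv'; simp [View.map] at hv'
    | @omega _ a' g hv' h2 hs =>
      rw [hv] at hv'
      simp only [View.map, View.omega.injEq] at hv'
      subst hv'
      refine ⟨g, fun z => ?_, hs, rfl⟩
      show Ev F (KT.Xs y.2) ((up a).map (cons z y.1)) _
      rw [up_map]
      exact h2 z
  · rintro ⟨g, h1, h2, rfl⟩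
    refine Ev.omega hv (fun z => ?_) h2
    have h3 := h1 z
    unfold E at h3
    rw [up_map] at h3
    exact h3

/-- Subcomputations. -/
inductive Sub (F : (ℕ → ℕ) → ℕ) : St ℕ × Z → St ℕ × Z → Prop
  | step {e e' : St ℕ} {y : Z} : view e = .step e' → Sub F (e', y) (e, y)
  | cnt {e : St ℕ} {c : ℕ → St ℕ} {G : GK ℕ} {y : Z} (n : ℕ) : view e = .cnt c G →
      Sub F (c n, y) (e, y)
  | br1 {e c : St ℕ} {k : ℕ → St ℕ} {y : Z} : view e = .branch c k → Sub F (c, y) (e, y)
  | br2 {e c : St ℕ} {k : ℕ → St ℕ} {y : Z} {v : ℕ} : view e = .branch c k → E F c y v →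
      Sub F (k v, y) (e, y)
  | om {e : St ℕ} {a : U ℕ} {w : W} {T : KT} (z : Cantor) : view e = .omega a →
      Sub F (up a, (cons z w, T)) (e, (w, T))

theorem acc_of_E {T : KT} {st : St Cantor} {n : ℕ} (h : Ev F (KT.Xs T) st n) :
    ∀ (e : St ℕ) (w : W), e.map w = st → Acc (Sub F) (e, (w, T)) := by
  induction h with
  | @ret st n hv =>
    rintro e w rfl
    refine Acc.intro _ ?_
    intro p hp
    rw [view_map] at hv
    cases hp with
    | step h => rw [h] at hv; simp [View.map] at hv
    | cnt _ h => rw [h] at hv; simp [View.map] at hv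
    | br1 h => rw [h] at hv; simp [View.map] at hv
    | br2 h => rw [h] at hv; simp [View.map] at hv
    | om _ h => rw [h] at hv; simp [View.map] at hv
  | @step st st' n hv _ ih =>
    rintro e w rfl
    refine Acc.intro _ ?_
    intro p hp
    rw [view_map] at hv
    cases hp with
    | step h =>
      rw [h] at hv
      simp only [View.map, View.step.injEq] at hv
      exact ih _ _ hv
    | cnt _ h => rw [h] at hv; simp [View.map] at hv
    | br1 h => rw [h] at hv; simp [View.map] at hv
    | br2 h => rw [h] at hv; simp [View.map] at hv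
    | om _ h => rw [h] at hv; simp [View.map] at hv
  | @cnt st c G f hv _ _ ih =>
    rintro e w rfl
    refine Acc.intro _ ?_
    intro p hp
    rw [view_map] at hv
    cases hp with
    | step h => rw [h] at hv; simp [View.map] at hv
    | cnt n h =>
      rw [h] at hv
      simp only [View.map, View.cnt.injEq] at hv
      exact ih n _ _ (congrFun hv.1 n)
    | br1 h => rw [h] at hv; simp [View.map] at hv
    | br2 h => rw [h] at hv; simp [View.map] at hv
    | om _ h => rw [h] at hv; simp [View.map] at hv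
  | @branch st c k v n hv h1 _ ih1 ih2 =>
    rintro e w rfl
    refine Acc.intro _ ?_
    intro p hp
    rw [view_map] at hv
    cases hp with
    | step h => rw [h] at hv; simp [View.map] at hv
    | cnt n h => rw [h] at hv; simp [View.map] at hv
    | br1 h =>
      rw [h] at hv
      simp only [View.map, View.branch.injEq] at hv
      exact ih1 _ _ hv.1
    | @br2 _ c' k' _ v' h h' =>
      rw [h] at hv
      simp only [View.map, View.branch.injEq] at hv
      have h2 : Ev F (KT.Xs T) c v' := by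
        rw [← hv.1]; exact h'
      have h3 : v = v' := Ev.det h1 h2
      subst h3
      exact ih2 _ _ (congrFun hv.2 v)
    | om _ h => rw [h] at hv; simp [View.map] at hv
  | @omega st a g hv _ _ ih =>
    rintro e w rfl
    refine Acc.intro _ ?_
    intro p hp
    rw [view_map] at hv
    cases hp with
    | step h => rw [h] at hv; simp [View.map] at hv
    | cnt n h => rw [h] at hv; simp [View.map] at hv
    | br1 h => rw [h] at hv; simp [View.map] at hv
    | br2 h => rw [h] at hv; simp [View.map] at hv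
    | om z h =>
      rw [h] at hv
      simp only [View.map, View.omega.injEq] at hv
      refine ih z _ _ ?_
      rw [up_map, hv]

/-! ### Auxiliary facts on analytic sets -/

theorem analytic_inter {X : Type*} [TopologicalSpace X] [T2Space X] {A B : Set X}
    (hA : AnalyticSet A) (hB : AnalyticSet B) : AnalyticSet (A ∩ B) := by
  have h : A ∩ B = ⋂ b : Bool, (if b then A else B) := by
    ext x
    simp [and_comm]
  rw [h]
  refine AnalyticSet.iInter fun b => ?_
  cases b
  · exact hB
  · exact hA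

/-- The map forgetting the first parameter. -/
def tl (y : Z) : Z := (fun n => y.1 (n + 1), y.2)

theorem continuous_tl : Continuous tl :=
  (continuous_pi fun n => (continuous_apply (n + 1)).comp continuous_fst).prodMk continuous_snd

theorem tl_cons (z : Cantor) (w : W) (T : KT) : tl (cons z w, T) = (w, T) := rfl

theorem cons_head (y : Z) : (cons (y.1 0) (tl y).1, (tl y).2) = y := by
  refine Prod.ext ?_ rfl
  funext n
  cases n <;> rfl

/-- A consequence of the separation theorem and the theorem of Lusin and Souslin. -/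
theorem proj_unique {S A1 A0 : Set Z} (hS : AnalyticSet S) (h1 : AnalyticSet A1)
    (h0 : AnalyticSet A0) (hd : Disjoint A1 A0) (hu : A1 ∪ A0 = tl ⁻¹' S)
    (hinj : InjOn tl A1) : AnalyticSet (tl '' A1) ∧ AnalyticSet (S \ tl '' A1) := by
  refine ⟨h1.image_of_continuous continuous_tl, ?_⟩
  borelize Z
  obtain ⟨B, hB1, hB0, hB⟩ := h1.measurablySeparable h0 hd
  let D : Set (Z × Z) := {p | p.1 ≠ p.2 ∧ tl p.1 = tl p.2 ∧ p.1 ∈ B ∧ p.2 ∈ B}
  have hD : AnalyticSet D := by
    have e1 : AnalyticSet {p : Z × Z | p.1 ≠ p.2} := by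
      have h : IsOpen {p : Z × Z | p.1 ≠ p.2} := isOpen_ne_fun continuous_fst continuous_snd
      borelize (Z × Z)
      exact h.measurableSet.analyticSet
    have e2 : AnalyticSet {p : Z × Z | tl p.1 = tl p.2} :=
      (isClosed_eq (continuous_tl.comp continuous_fst)
        (continuous_tl.comp continuous_snd)).analyticSet
    have e3 : AnalyticSet {p : Z × Z | p.1 ∈ B} :=
      hB.analyticSet.preimage (f := fun p : Z × Z => p.1) continuous_fst
    have e4 : AnalyticSet {p : Z × Z | p.2 ∈ B} :=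
      hB.analyticSet.preimage (f := fun p : Z × Z => p.2) continuous_snd
    exact analytic_inter e1 (analytic_inter e2 (analytic_inter e3 e4))
  have hN : AnalyticSet ((fun p : Z × Z => tl p.1) '' D) :=
    hD.image_of_continuous (continuous_tl.comp continuous_fst)
  have hB' : ∀ y ∈ B, tl y ∈ S → y ∈ A1 := by
    intro y hy hyS
    have h2 : y ∈ A1 ∪ A0 := by rw [hu]; exact hyS
    rcases h2 with h2 | h2
    · exact h2
    · exact absurd hy (disjoint_left.1 hB0 h2)
  have hSN : Disjoint S ((fun p : Z × Z => tl p.1) '' D) := by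
    rw [disjoint_left]
    rintro y hy ⟨⟨y1, y2⟩, ⟨hne, heq, hy1, hy2⟩, rfl⟩
    simp only at hne heq hy1 hy2 hy
    exact hne (hinj (hB' y1 hy1 hy) (hB' y2 hy2 (heq ▸ hy)) heq)
  obtain ⟨C, hC1, hC0, hC⟩ := hS.measurablySeparable hN hSN
  have hBC : MeasurableSet (B ∩ tl ⁻¹' C) := hB.inter (continuous_tl.measurable hC)
  have hinj' : InjOn tl (B ∩ tl ⁻¹' C) := by
    rintro y1 ⟨hy1, hc1⟩ y2 ⟨hy2, _⟩ heq
    by_contra hne
    exact disjoint_left.1 hC0 ⟨(y1, y2), ⟨hne, heq, hy1, hy2⟩, rfl⟩ hc1
  have himg : MeasurableSet (tl '' (B ∩ tl ⁻¹' C)) :=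
    hBC.image_of_continuousOn_injOn continuous_tl.continuousOn hinj'
  have hfin : S \ tl '' A1 = S ∩ (tl '' (B ∩ tl ⁻¹' C))ᶜ := by
    ext y
    constructor
    · rintro ⟨hy, hn⟩
      refine ⟨hy, ?_⟩
      rintro ⟨y', ⟨hy'B, _⟩, rfl⟩
      exact hn ⟨y', hB' y' hy'B hy, rfl⟩
    · rintro ⟨hy, hn⟩
      refine ⟨hy, ?_⟩
      rintro ⟨y', hy', rfl⟩
      exact hn ⟨y', ⟨hB1 hy', hC1 hy⟩, rfl⟩
  rw [hfin]
  exact analytic_inter hS himg.compl.analyticSet

/-! ### Good computations -/

/-- Total computations. -/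
def Tot (F : (ℕ → ℕ) → ℕ) (e : St ℕ) (S : Set Z) : Prop := ∀ y ∈ S, ∃ n, E F e y n

/-- Computations built up in a well-founded way from countable decompositions of sets of
parameters. -/
inductive Good (F : (ℕ → ℕ) → ℕ) : St ℕ → Set Z → Prop
  | cover {e : St ℕ} {S : Set Z} {ι : Type} (hι : Countable ι) (C : ι → Set Z) :
      (∀ n, Good F e (C n)) → S = ⋃ n, C n → Good F e S
  | ret {e : St ℕ} {S : Set Z} {n : ℕ} : AnalyticSet S → view e = .ret n → Good F e S
  | step {e e' : St ℕ} {S : Set Z} : AnalyticSet S → view e = .step e' → Good F e' S → Good F e S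
  | cnt {e : St ℕ} {c : ℕ → St ℕ} {G : GK ℕ} {S : Set Z} : AnalyticSet S → view e = .cnt c G →
      (∀ n, Good F (c n) S) → Good F e S
  | branch {e c : St ℕ} {k : ℕ → St ℕ} {S : Set Z} : AnalyticSet S → view e = .branch c k →
      Good F c S → (∀ v, Good F (k v) {y | y ∈ S ∧ E F c y v}) → Good F e S
  | omega {e : St ℕ} {a : U ℕ} {S : Set Z} : AnalyticSet S → view e = .omega a →
      Good F (up a) (tl ⁻¹' S) → Good F e S

theorem Good.analytic {e : St ℕ} {S : Set Z} (h : Good F e S) : AnalyticSet S := by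
  induction h with
  | cover hι C _ hS ih =>
    rw [hS]
    exact AnalyticSet.iUnion ih
  | ret h _ => exact h
  | step h _ _ _ => exact h
  | cnt h _ _ _ => exact h
  | branch h _ _ _ _ _ => exact h
  | omega h _ _ _ => exact h

theorem tot_tl {e : St ℕ} {a : U ℕ} {S : Set Z} (hv : view e = .omega a) (h : Tot F e S) :
    Tot F (up a) (tl ⁻¹' S) := by
  intro y hy
  obtain ⟨n, hn⟩ := h _ hy
  obtain ⟨g, hg, _⟩ := (E_omega hv).1 hn
  have := hg (y.1 0)
  rw [cons_head] at this
  exact ⟨_, this⟩

theorem measurable_val (hF : @Measurable _ _ (borel (ℕ → ℕ)) ⊤ F) (G : GK ℕ) (k : ℕ) :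
    AnalyticSet {p : Z × (ℕ → ℕ) | G.dom p.2 ∧ k = G.val F (KT.Xs p.1.2) p.1.1 p.2} := by
  borelize (Z × (ℕ → ℕ))
  apply MeasurableSet.analyticSet
  have hf : ∀ n m : ℕ, MeasurableSet {p : Z × (ℕ → ℕ) | p.2 n = m} := by
    intro n m
    have hc : Continuous fun p : Z × (ℕ → ℕ) => p.2 n :=
      (continuous_apply n).comp continuous_snd
    exact ((isOpen_discrete {m}).preimage hc).measurableSet
  cases G with
  | succ =>
    have : {p : Z × (ℕ → ℕ) | (GK.succ : GK ℕ).dom p.2 ∧
        k = (GK.succ : GK ℕ).val F (KT.Xs p.1.2) p.1.1 p.2} =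
        ⋃ m ∈ {m : ℕ | k = m + 1}, {p : Z × (ℕ → ℕ) | p.2 0 = m} := by
      ext p
      simp [GK.dom, GK.val]
    rw [this]
    exact MeasurableSet.biUnion (to_countable _) fun m _ => hf 0 m
  | pred =>
    have : {p : Z × (ℕ → ℕ) | (GK.pred : GK ℕ).dom p.2 ∧
        k = (GK.pred : GK ℕ).val F (KT.Xs p.1.2) p.1.1 p.2} =
        ⋃ m ∈ {m : ℕ | k = m - 1}, {p : Z × (ℕ → ℕ) | p.2 0 = m} := by
      ext p
      simp [GK.dom, GK.val]
    rw [this]
    exact MeasurableSet.biUnion (to_countable _) fun m _ => hf 0 m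
  | real i =>
    have : {p : Z × (ℕ → ℕ) | (GK.real i : GK ℕ).dom p.2 ∧
        k = (GK.real i : GK ℕ).val F (KT.Xs p.1.2) p.1.1 p.2} =
        ⋃ m : ℕ, ({p : Z × (ℕ → ℕ) | p.2 0 = m} ∩
          {p : Z × (ℕ → ℕ) | k = (p.1.1 i m).toNat}) := by
      ext p
      simp [GK.dom, GK.val]
    rw [this]
    refine MeasurableSet.iUnion fun m => (hf 0 m).inter ?_
    have hc : Continuous fun p : Z × (ℕ → ℕ) => (p.1.1 i m).toNat := by
      have h1 : Continuous fun b : Bool => b.toNat := continuous_of_discreteTopology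
      exact h1.comp ((continuous_apply m).comp ((continuous_apply i).comp
        (continuous_fst.comp continuous_fst)))
    have h2 : {p : Z × (ℕ → ℕ) | k = (p.1.1 i m).toNat} =
        (fun p : Z × (ℕ → ℕ) => (p.1.1 i m).toNat) ⁻¹' {k} := by
      ext p
      exact eq_comm
    rw [h2]
    exact ((isOpen_discrete {k}).preimage hc).measurableSet
  | orX =>
    have hdom : MeasurableSet {p : Z × (ℕ → ℕ) | ∀ n, p.2 n = 0 ∨ p.2 n = 1} := by
      have : {p : Z × (ℕ → ℕ) | ∀ n, p.2 n = 0 ∨ p.2 n = 1} =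
          ⋂ n, ({p : Z × (ℕ → ℕ) | p.2 n = 0} ∪ {p : Z × (ℕ → ℕ) | p.2 n = 1}) := by
        ext p
        simp
      rw [this]
      exact MeasurableSet.iInter fun n => (hf n 0).union (hf n 1)
    have hmem : MeasurableSet {p : Z × (ℕ → ℕ) | toC p.2 ∈ KT.Xs p.1.2} := by
      have hc : Continuous fun p : Z × (ℕ → ℕ) => (toC p.2, p.1.2) := by
        refine (continuous_pi fun n => ?_).prodMk (continuous_snd.comp continuous_fst)
        have h1 : Continuous fun m : ℕ => decide (m = 1) := continuous_of_discreteTopology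
        exact h1.comp ((continuous_apply n).comp continuous_snd)
      exact (KT.isClosed_mem.preimage hc).measurableSet
    have : {p : Z × (ℕ → ℕ) | (GK.orX : GK ℕ).dom p.2 ∧
        k = (GK.orX : GK ℕ).val F (KT.Xs p.1.2) p.1.1 p.2} =
        {p : Z × (ℕ → ℕ) | ∀ n, p.2 n = 0 ∨ p.2 n = 1} ∩
        (({p : Z × (ℕ → ℕ) | toC p.2 ∈ KT.Xs p.1.2} ∩ {_p : Z × (ℕ → ℕ) | k = 1}) ∪
        ({p : Z × (ℕ → ℕ) | toC p.2 ∈ KT.Xs p.1.2}ᶜ ∩ {_p : Z × (ℕ → ℕ) | k = 0})) := by
      classical
      ext p
      by_cases hp : toC p.2 ∈ KT.Xs p.1.2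
      · simp [GK.dom, GK.val, hp]
      · simp [GK.dom, GK.val, hp]
    rw [this]
    exact hdom.inter ((hmem.inter (MeasurableSet.const _)).union
      (hmem.compl.inter (MeasurableSet.const _)))
  | orF =>
    have h1 : {p : Z × (ℕ → ℕ) | (GK.orF : GK ℕ).dom p.2 ∧
        k = (GK.orF : GK ℕ).val F (KT.Xs p.1.2) p.1.1 p.2} =
        (fun p : Z × (ℕ → ℕ) => p.2) ⁻¹' (F ⁻¹' {k}) := by
      ext p
      constructor
      · rintro ⟨_, h⟩
        exact h.symm
      · intro h
        exact ⟨trivial, Eq.symm h⟩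
    rw [h1]
    borelize (ℕ → ℕ)
    exact continuous_snd.measurable (hF trivial)

/-- In a good total computation the set of the parameters with a given value is analytic. -/
theorem Good.value (hF : @Measurable _ _ (borel (ℕ → ℕ)) ⊤ F) {e : St ℕ} {S : Set Z}
    (h : Good F e S) : Tot F e S → ∀ k, AnalyticSet {y | y ∈ S ∧ E F e y k} := by
  classical
  induction h with
  | @cover e S ι hι C _ hS ih =>
    intro ht k
    have h1 : {y | y ∈ S ∧ E F e y k} = ⋃ n, {y | y ∈ C n ∧ E F e y k} := by
      ext y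
      rw [hS]
      simp
    rw [h1]
    exact AnalyticSet.iUnion fun n => ih n (fun y hy => ht y (by
      rw [hS]; exact mem_iUnion.2 ⟨n, hy⟩)) k
  | @ret e S n hS hv =>
    intro _ k
    by_cases hk : k = n
    · have : {y | y ∈ S ∧ E F e y k} = S := by
        ext y
        exact ⟨fun h => h.1, fun h => ⟨h, (E_ret hv).2 hk⟩⟩
      rw [this]; exact hS
    · have : {y | y ∈ S ∧ E F e y k} = ∅ := by
        ext y
        exact ⟨fun h => hk ((E_ret hv).1 h.2), fun h => h.elim⟩
      rw [this]; exact analyticSet_empty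
  | @step e e' S hS hv _ ih =>
    intro ht k
    have h1 : {y | y ∈ S ∧ E F e y k} = {y | y ∈ S ∧ E F e' y k} := by
      ext y
      exact and_congr Iff.rfl (E_step hv)
    rw [h1]
    exact ih (fun y hy => by
      obtain ⟨n, hn⟩ := ht y hy
      exact ⟨n, (E_step hv).1 hn⟩) k
  | @cnt e c G S hS hv _ ih =>
    intro ht k
    have htc : ∀ n, Tot F (c n) S := by
      intro n y hy
      obtain ⟨m, hm⟩ := ht y hy
      obtain ⟨f, hf, _⟩ := (E_cnt hv).1 hm
      exact ⟨_, hf n⟩
    have h1 : AnalyticSet {p : Z × (ℕ → ℕ) | ∀ n, p.1 ∈ S ∧ E F (c n) p.1 (p.2 n)} := by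
      have h2 : {p : Z × (ℕ → ℕ) | ∀ n, p.1 ∈ S ∧ E F (c n) p.1 (p.2 n)} =
          ⋂ n, ⋃ m, ({p : Z × (ℕ → ℕ) | p.1 ∈ {y | y ∈ S ∧ E F (c n) y m}} ∩
            {p : Z × (ℕ → ℕ) | p.2 n = m}) := by
        ext p
        simp only [mem_iInter, mem_iUnion]
        constructor
        · intro h n
          exact ⟨p.2 n, h n, rfl⟩
        · intro h n
          obtain ⟨m, h1, h2⟩ := h n
          have h3 : p.2 n = m := h2
          subst h3
          exact h1
      rw [h2]
      refine AnalyticSet.iInter fun n => AnalyticSet.iUnion fun m => analytic_inter ?_ ?_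
      · exact (ih n (htc n) m).preimage (f := fun p : Z × (ℕ → ℕ) => p.1) continuous_fst
      · have : IsClosed {p : Z × (ℕ → ℕ) | p.2 n = m} :=
          isClosed_singleton.preimage ((continuous_apply n).comp continuous_snd)
        exact this.analyticSet
    have h2 : {y | y ∈ S ∧ E F e y k} = (fun p : Z × (ℕ → ℕ) => p.1) ''
        ({p : Z × (ℕ → ℕ) | ∀ n, p.1 ∈ S ∧ E F (c n) p.1 (p.2 n)} ∩
          {p : Z × (ℕ → ℕ) | G.dom p.2 ∧ k = G.val F (KT.Xs p.1.2) p.1.1 p.2}) := by
      ext y
      constructor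
      · rintro ⟨hy, hk⟩
        obtain ⟨f, hf, hd, rfl⟩ := (E_cnt hv).1 hk
        exact ⟨(y, f), ⟨fun n => ⟨hy, hf n⟩, hd, rfl⟩, rfl⟩
      · rintro ⟨⟨y, f⟩, ⟨h3, hd, hk⟩, rfl⟩
        exact ⟨(h3 0).1, (E_cnt hv).2 ⟨f, fun n => (h3 n).2, hd, hk⟩⟩
    rw [h2]
    exact (analytic_inter h1 (measurable_val hF G k)).image_of_continuous continuous_fst
  | @branch e c k S hS hv _ _ ih1 ih2 =>
    intro ht n
    have htc : Tot F c S := by
      intro y hy
      obtain ⟨m, hm⟩ := ht y hy
      obtain ⟨v, h1, _⟩ := (E_branch hv).1 hm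
      exact ⟨v, h1⟩
    have htk : ∀ v, Tot F (k v) {y | y ∈ S ∧ E F c y v} := by
      rintro v y ⟨hy, hyv⟩
      obtain ⟨m, hm⟩ := ht y hy
      obtain ⟨v', h1, h2⟩ := (E_branch hv).1 hm
      have := E_det hyv h1
      subst this
      exact ⟨m, h2⟩
    have h1 : {y | y ∈ S ∧ E F e y n} = ⋃ v, {y | y ∈ {y | y ∈ S ∧ E F c y v} ∧
        E F (k v) y n} := by
      ext y
      simp only [mem_iUnion]
      constructor
      · rintro ⟨hy, hn⟩
        obtain ⟨v, h1, h2⟩ := (E_branch hv).1 hn
        exact ⟨v, ⟨hy, h1⟩, h2⟩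
      · rintro ⟨v, ⟨hy, h1⟩, h2⟩
        exact ⟨hy, (E_branch hv).2 ⟨v, h1, h2⟩⟩
    rw [h1]
    exact AnalyticSet.iUnion fun v => ih2 v (htk v) n
  | @omega e a S hS hv _ ih =>
    intro ht k
    have ht' := tot_tl hv ht
    set A1 : Set Z := {y | y ∈ tl ⁻¹' S ∧ E F (up a) y 1} with hA1
    set A0 : Set Z := {y | y ∈ tl ⁻¹' S ∧ E F (up a) y 0} with hA0
    have hval : ∀ y ∈ S, ∃ g : Cantor → Bool, (∀ z, E F (up a) (cons z y.1, y.2) (g z).toNat) ∧
        {z | g z = true}.Subsingleton ∧ E F e y (if {z | g z = true} = ∅ then 0 else 1) := by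
      intro y hy
      obtain ⟨n, hn⟩ := ht y hy
      obtain ⟨g, hg, hs, rfl⟩ := (E_omega hv).1 hn
      exact ⟨g, hg, hs, hn⟩
    have hdis : Disjoint A1 A0 := by
      rw [disjoint_left]
      rintro y ⟨_, h1⟩ ⟨_, h2⟩
      exact absurd (E_det h1 h2) one_ne_zero
    have hun : A1 ∪ A0 = tl ⁻¹' S := by
      ext y
      constructor
      · rintro (h | h)
        · exact h.1
        · exact h.1
      · intro hy
        obtain ⟨g, hg, _⟩ := hval (tl y) hy
        have h1 := hg (y.1 0)
        rw [cons_head] at h1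
        cases hgz : g (y.1 0)
        · right
          rw [hgz] at h1
          exact ⟨hy, h1⟩
        · left
          rw [hgz] at h1
          exact ⟨hy, h1⟩
    have hinj : InjOn tl A1 := by
      rintro y1 ⟨hy1, h1⟩ y2 ⟨hy2, h2⟩ heq
      obtain ⟨g, hg, hs, _⟩ := hval (tl y1) hy1
      have e1 := hg (y1.1 0)
      rw [cons_head] at e1
      have e2 := hg (y2.1 0)
      rw [heq, cons_head] at e2
      have g1 : g (y1.1 0) = true := by
        have := E_det e1 h1
        cases h : g (y1.1 0)
        · rw [h] at this; simp at this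
        · rfl
      have g2 : g (y2.1 0) = true := by
        have := E_det e2 h2
        cases h : g (y2.1 0)
        · rw [h] at this; simp at this
        · rfl
      have h3 : y1.1 0 = y2.1 0 := hs g1 g2
      rw [← cons_head y1, ← cons_head y2, heq, h3]
    obtain ⟨hp1, hp0⟩ := proj_unique hS (ih ht' 1) (ih ht' 0) hdis hun hinj
    have key : ∀ y ∈ S, (E F e y 1 ↔ y ∈ tl '' A1) ∧ (E F e y 0 ↔ y ∉ tl '' A1) ∧
        (∀ k, E F e y k → k = 0 ∨ k = 1) := by
      intro y hy
      obtain ⟨g, hg, hs, hE⟩ := hval y hy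
      have h1 : {z | g z = true} = ∅ ↔ y ∉ tl '' A1 := by
        constructor
        · rintro h ⟨y', ⟨_, h1⟩, rfl⟩
          have e1 := hg (y'.1 0)
          rw [cons_head] at e1
          have := E_det e1 h1
          have h2 : g (y'.1 0) = true := by
            cases h : g (y'.1 0)
            · rw [h] at this; simp at this
            · rfl
          have h3 : y'.1 0 ∈ ({z | g z = true} : Set Cantor) := h2
          rw [h] at h3
          exact h3
        · intro h
          rw [Set.eq_empty_iff_forall_notMem]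
          intro z hz
          have hz' : g z = true := hz
          apply h
          refine ⟨(cons z y.1, y.2), ⟨hy, ?_⟩, rfl⟩
          have := hg z
          rw [hz'] at this
          exact this
      by_cases hc : {z | g z = true} = ∅
      · rw [if_pos hc] at hE
        refine ⟨⟨fun h => absurd (E_det hE h) zero_ne_one, fun h => absurd h (h1.1 hc)⟩,
          ⟨fun _ => h1.1 hc, fun _ => hE⟩, fun k hk => Or.inl (E_det hk hE)⟩
      · rw [if_neg hc] at hE
        have h2 : y ∈ tl '' A1 := by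
          by_contra hcon
          exact hc (h1.2 hcon)
        refine ⟨⟨fun _ => h2, fun _ => hE⟩, ⟨fun h => absurd (E_det hE h) one_ne_zero,
          fun h => absurd h2 h⟩, fun k hk => Or.inr (E_det hk hE)⟩
    by_cases hk1 : k = 1
    · subst hk1
      have : {y | y ∈ S ∧ E F e y 1} = S ∩ tl '' A1 := by
        ext y
        exact ⟨fun h => ⟨h.1, (key y h.1).1.1 h.2⟩, fun h => ⟨h.1, (key y h.1).1.2 h.2⟩⟩
      rw [this]
      exact analytic_inter hS hp1
    · by_cases hk0 : k = 0
      · subst hk0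
        have : {y | y ∈ S ∧ E F e y 0} = S \ tl '' A1 := by
          ext y
          exact ⟨fun h => ⟨h.1, (key y h.1).2.1.1 h.2⟩, fun h => ⟨h.1, (key y h.1).2.1.2 h.2⟩⟩
        rw [this]
        exact hp0
      · have : {y | y ∈ S ∧ E F e y k} = ∅ := by
          ext y
          refine ⟨fun h => ?_, fun h => h.elim⟩
          rcases (key y h.1).2.2 k h.2 with h' | h'
          · exact hk0 h'
          · exact hk1 h'
        rw [this]
        exact analyticSet_empty

/-- Total computations are good. -/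
theorem good_of_tot (hF : @Measurable _ _ (borel (ℕ → ℕ)) ⊤ F) {e : St ℕ} {S : Set Z}
    (hS : AnalyticSet S) (ht : Tot F e S) : Good F e S := by
  by_contra hcon
  let Bad : St ℕ → Set Z → Prop := fun e S => AnalyticSet S ∧ Tot F e S ∧ ¬ Good F e S
  have key := BarInd.bar (Sub F) Bad ?_ ?_ ?_ ?_ e S ⟨hS, ht, hcon⟩
  · obtain ⟨⟨w, T⟩, hy, hacc⟩ := key
    obtain ⟨n, hn⟩ := ht _ hy
    exact hacc (acc_of_E hn e w rfl)
  · rintro e ⟨_, _, h⟩
    exact h (Good.cover (ι := Empty) inferInstance (fun _ => ∅) (fun n => n.elim) (by simp))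
  · rintro e S ⟨h, _, _⟩
    exact h
  · rintro ι hι e S A ⟨_, ht, hn⟩ hA hSA
    by_contra hc
    apply hn
    refine Good.cover hι A (fun n => ?_) hSA
    by_contra hg
    exact hc ⟨n, hA n, fun y hy => ht y (by rw [hSA]; exact mem_iUnion.2 ⟨n, hy⟩), hg⟩
  · rintro e S ⟨hS, ht, hn⟩
    cases hv : view e with
    | stuck =>
      exfalso
      have hSe : S = ∅ := by
        rw [Set.eq_empty_iff_forall_notMem]
        intro y hy
        obtain ⟨n, hn⟩ := ht y hy
        exact E_stuck hv hn
      apply hn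
      refine Good.cover (ι := Empty) inferInstance (fun _ => ∅) (fun n => n.elim) ?_
      rw [hSe]; simp
    | ret n => exact absurd (Good.ret hS hv) hn
    | step e' =>
      have ht' : Tot F e' S := by
        intro y hy
        obtain ⟨n, hn⟩ := ht y hy
        exact ⟨n, (E_step hv).1 hn⟩
      refine ⟨e', S, id, continuous_id, ⟨hS, ht', fun h => hn (Good.step hS hv h)⟩, ?_⟩
      intro y hy
      exact ⟨hy, Sub.step hv⟩
    | cnt c G =>
      have htc : ∀ n, Tot F (c n) S := by
        intro n y hy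
        obtain ⟨m, hm⟩ := ht y hy
        obtain ⟨f, hf, _⟩ := (E_cnt hv).1 hm
        exact ⟨_, hf n⟩
      have : ∃ n, ¬ Good F (c n) S := by
        by_contra hc
        push Not at hc
        exact hn (Good.cnt hS hv hc)
      obtain ⟨n, hgn⟩ := this
      exact ⟨c n, S, id, continuous_id, ⟨hS, htc n, hgn⟩, fun y hy => ⟨hy, Sub.cnt n hv⟩⟩
    | branch c k =>
      have htc : Tot F c S := by
        intro y hy
        obtain ⟨m, hm⟩ := ht y hy
        obtain ⟨v, h1, _⟩ := (E_branch hv).1 hm
        exact ⟨v, h1⟩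
      have htk : ∀ v, Tot F (k v) {y | y ∈ S ∧ E F c y v} := by
        rintro v y ⟨hy, hyv⟩
        obtain ⟨m, hm⟩ := ht y hy
        obtain ⟨v', h1, h2⟩ := (E_branch hv).1 hm
        have := E_det hyv h1
        subst this
        exact ⟨m, h2⟩
      by_cases hgc : Good F c S
      · have : ∃ v, ¬ Good F (k v) {y | y ∈ S ∧ E F c y v} := by
          by_contra hc
          push Not at hc
          exact hn (Good.branch hS hv hgc hc)
        obtain ⟨v, hgv⟩ := this
        exact ⟨k v, {y | y ∈ S ∧ E F c y v}, id, continuous_id,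
          ⟨hgc.value hF htc v, htk v, hgv⟩, fun y hy => ⟨hy.1, Sub.br2 hv hy.2⟩⟩
      · exact ⟨c, S, id, continuous_id, ⟨hS, htc, hgc⟩, fun y hy => ⟨hy, Sub.br1 hv⟩⟩
    | omega a =>
      refine ⟨up a, tl ⁻¹' S, tl, continuous_tl, ⟨hS.preimage continuous_tl, tot_tl hv ht,
        fun h => hn (Good.omega hS hv h)⟩, ?_⟩
      intro y hy
      refine ⟨hy, ?_⟩
      have h1 := Sub.om (F := F) (w := (tl y).1) (T := (tl y).2) (y.1 0) hv
      rw [cons_head] at h1
      exact h1

end

end Pool.Agent.H904R3
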